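import Mathlib
import Pool.Agent.H81.NC.SepDual
import Pool.Agent.H75.Four.HOrder
import Pool.Agent.H75.Four.FOther

set_option autoImplicit false
open Finset

/-! Exact duality in every environment: the ends of an edge are not connected off the edge if and only
if its two faces are joined by a closed dual path off the edge. -/

namespace Pool.Agent.H65.Dom

open Pool.Agent.H75.Perc Pool.Agent.H75.TwoArm Pool.Agent.H75.Four

/-- the labels of `B` with an end in the open cluster of `v` -/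
noncomputable def LB (B ω : Finset (ℤ × ℤ)) (v : ℤ × ℤ) : Finset (ℤ × ℤ) := by
  classical exact B.filter (fun l => Co ω v (eu l) ∨ Co ω v (ev l))

lemma mem_LB {B ω : Finset (ℤ × ℤ)} {v l : ℤ × ℤ} :
    l ∈ LB B ω v ↔ l ∈ B ∧ (Co ω v (eu l) ∨ Co ω v (ev l)) := by
  classical
  unfold LB
  rw [mem_filter]

/-- the two ends of the label of a corner -/
lemma lab_ends (z : ℤ × ℤ) : vx z = eu (lab z) ∨ vx z = ev (lab z) := by
  unfold vx eu ev
  rcases ty_cases z with ⟨-, h1, h2, h3, -, -⟩ | ⟨-, h1, h2, h3, -, -⟩ | ⟨-, h1, h2, h3, -, -⟩ |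
      ⟨-, h1, h2, h3, -, -⟩ <;> rw [h3] <;>
    simp only [Prod.ext_iff, true_and, and_true, true_or] <;> omega

/-- if the ends of `e` are not connected off `e` then its faces are joined by a closed dual path; all
its labels have an end in the cluster of the chosen end `vx z0` of `e` -/
theorem dual_of_sepc {M : ℤ} {ω : Finset (ℤ × ℤ)} {e z0 z1 : ℤ × ℤ} (he : (e.1 + e.2) % 2 = 1)
    (heM : e ∈ H75.TwoArm.BB (M - 1)) (hω : ω ⊆ H75.TwoArm.BB (M - 1))
    (hz : (z0 = zu e ∧ z1 = zv e) ∨ (z0 = zv e ∧ z1 = zu e))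
    (h : ¬ Co (ω.erase e) (vx z0) (vx z1)) :
    Co (du (LB (H75.TwoArm.BB M) (ω.erase e) (vx z0)) (insert e ω)) (fi z0) (fi z1) := by
  classical
  obtain ⟨hop, hlu, hff⟩ : opc z0 = z1 ∧ lab z0 = e ∧ fi z0 + fi z1 = e + (1, 1) := by
    obtain ⟨h1, h2, h3, h4, -, -⟩ := opc_zu he
    have h5 := sub_eq_iff_eq_add.1 (H75.Four.PivAux.fi_zu_zv he).2
    rcases hz with ⟨rfl, rfl⟩ | ⟨rfl, rfl⟩
    · exact ⟨h1, h3, h5⟩
    · exact ⟨h2, h4, by rw [add_comm]; exact h5⟩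
  set ω0 := ω.erase e with hω0
  have h0 : ω0 ⊆ H75.TwoArm.BB (M - 1) := (erase_subset _ _).trans hω
  have heω0 : e ∉ ω0 := notMem_erase e ω
  have hMM : ∀ a : ℤ × ℤ, a ∈ H75.TwoArm.BB M ↔
    (-(2 * M) ≤ a.1 ∧ a.1 ≤ 2 * M) ∧ (-(2 * M) ≤ a.2 ∧ a.2 ≤ 2 * M) ∧ (a.1 + a.2) % 2 = 1 :=
    fun a => HOrderAux.mem_BB'
  have hM1 : ∀ a : ℤ × ℤ, a ∈ H75.TwoArm.BB (M - 1) ↔
    (-(2 * (M - 1)) ≤ a.1 ∧ a.1 ≤ 2 * (M - 1)) ∧ (-(2 * (M - 1)) ≤ a.2 ∧ a.2 ≤ 2 * (M - 1)) ∧
      (a.1 + a.2) % 2 = 1 := fun a => HOrderAux.mem_BB'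
  have heM' := (hM1 e).1 heM
  -- the corners of the vertices of the box of radius `M - 1`
  set S : Finset (ℤ × ℤ) := Icc (-(2 * (M - 1))) (2 * (M - 1) + 1) ×ˢ
    Icc (-(2 * (M - 1))) (2 * (M - 1) + 1) with hS
  have hmS : ∀ z : ℤ × ℤ, z ∈ S ↔ (-(2 * (M - 1)) ≤ z.1 ∧ z.1 ≤ 2 * (M - 1) + 1) ∧
      (-(2 * (M - 1)) ≤ z.2 ∧ z.2 ≤ 2 * (M - 1) + 1) := by
    intro z; rw [hS, mem_product, mem_Icc, mem_Icc]
  have hlab : ∀ z ∈ S, lab z ∈ H75.TwoArm.BB M := by
    intro z hz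
    rw [hmS] at hz
    rw [hMM]
    rcases ty_cases z with ⟨-, h1, h2, h3, -, -⟩ | ⟨-, h1, h2, h3, -, -⟩ | ⟨-, h1, h2, h3, -, -⟩ |
      ⟨-, h1, h2, h3, -, -⟩ <;> rw [h3] <;> simp only <;> omega
  have hnx : ∀ z ∈ S, nx ω0 z ∈ S := by
    intro z hz
    rw [hmS] at hz
    rw [hmS]
    by_cases hl : lab z ∈ ω0
    · have hl' := (hM1 _).1 (h0 hl)
      unfold nx
      rw [if_pos hl]
      rcases ty_cases z with ⟨-, h1, h2, h3, h4, h5⟩ | ⟨-, h1, h2, h3, h4, h5⟩ |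
        ⟨-, h1, h2, h3, h4, h5⟩ | ⟨-, h1, h2, h3, h4, h5⟩ <;> rw [h5] <;> rw [h3] at hl' <;>
        simp only at hl' ⊢ <;> omega
    · unfold nx
      rw [if_neg hl]
      rcases ty_cases z with ⟨-, h1, h2, h3, h4, h5⟩ | ⟨-, h1, h2, h3, h4, h5⟩ |
        ⟨-, h1, h2, h3, h4, h5⟩ | ⟨-, h1, h2, h3, h4, h5⟩ <;> rw [h4] <;>
        simp only <;> omega
  have hc : z0 ∈ S := by
    rw [hmS]
    rcases hz with ⟨rfl, -⟩ | ⟨rfl, -⟩
    · unfold zu
      split_ifs <;> omega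
    · unfold zv
      split_ifs <;> simp only <;> omega
  obtain ⟨L, hO⟩ := exists_orb (nx ω0) (nx_injective ω0) S hnx z0 hc
  have hin : ∀ i, (nx ω0)^[i] z0 ∈ S := by
    intro i
    induction i with
    | zero => exact hc
    | succ i ih => rw [Function.iterate_succ_apply']; exact hnx _ ih
  have hco : ∀ i, Co ω0 (vx z0) (vx ((nx ω0)^[i] z0)) := by
    intro i
    induction i with
    | zero => rw [Function.iterate_zero, id]; exact Co.refl _ _
    | succ i ih =>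
      rw [Function.iterate_succ_apply']
      set z := (nx ω0)^[i] z0
      by_cases hl : lab z ∈ ω0
      · have h1 : nx ω0 z = nxO z := by unfold nx; rw [if_pos hl]
        rw [h1]
        have h2 := vx_nxO z
        exact ih.tail ⟨h2.1, by rw [h2.2]; exact hl⟩
      · have h1 : nx ω0 z = nxC z := by unfold nx; rw [if_neg hl]
        rw [h1, vx_nxC]
        exact ih
  -- the faces
  have hstep : ∀ i, 1 ≤ i → i < L → lab ((nx ω0)^[i] z0) ≠ e := by
    intro i h1 h2 h3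
    have h3 := h3.trans hlu.symm
    rcases lab_eq_iff.1 h3 with h4 | h4
    · exact hO.inj 0 i h1 h2 h4.symm
    · rw [hop] at h4
      have h5 := hco i
      rw [h4] at h5
      exact h h5
  have hfirst : fi ((nx ω0)^[1] z0) = fi z1 := by
    have h1 : (nx ω0)^[1] z0 = nxC z0 := by
      rw [Function.iterate_one]
      unfold nx
      rw [hlu, if_neg heω0]
    rw [h1]
    have h2 := (H75.TwoArm.StrandAux.fi_nxC z0).2
    rw [hlu, ← hff] at h2
    exact add_left_cancel h2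
  have key : ∀ i, 1 ≤ i → i ≤ L → Co (du (LB (H75.TwoArm.BB M) ω0 (vx z0)) (insert e ω))
      (fi z1) (fi ((nx ω0)^[i] z0)) := by
    intro i h1 h2
    induction i, h1 using Nat.le_induction with
    | base => rw [hfirst]; exact Co.refl _ _
    | succ i h1 ih =>
      have ih := ih (by omega)
      rw [Function.iterate_succ_apply']
      have hne := hstep i h1 (by omega)
      have hS' : lab ((nx ω0)^[i] z0) ∈ LB (H75.TwoArm.BB M) ω0 (vx z0) := by
        refine mem_LB.2 ⟨hlab _ (hin i), ?_⟩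
        rcases lab_ends ((nx ω0)^[i] z0) with h3 | h3
        · rw [← h3]; exact Or.inl (hco i)
        · rw [← h3]; exact Or.inr (hco i)
      set z := (nx ω0)^[i] z0
      by_cases hl : lab z ∈ ω0
      · have h3 : nx ω0 z = nxO z := by unfold nx; rw [if_pos hl]
        rw [h3, H75.TwoArm.StrandAux.fi_nxO]
        exact ih
      · have h3 : nx ω0 z = nxC z := by unfold nx; rw [if_neg hl]
        rw [h3]
        have h4 := H75.TwoArm.StrandAux.fi_nxC z
        refine ih.tail ⟨h4.1, ?_⟩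
        rw [h4.2]
        refine H75.TwoArm.StrandAux.mem_du hS' ?_
        rw [mem_insert]
        rintro (h5 | h5)
        · exact hne h5
        · exact hl (mem_erase.2 ⟨hne, h5⟩)
  have := key L hO.pos le_rfl
  rw [hO.per] at this
  exact this.symm

/-- the case `z0 = zu e` -/
theorem dual_of_sep' {M : ℤ} {ω : Finset (ℤ × ℤ)} {e : ℤ × ℤ} (he : (e.1 + e.2) % 2 = 1)
    (heM : e ∈ H75.TwoArm.BB (M - 1)) (hω : ω ⊆ H75.TwoArm.BB (M - 1))
    (h : ¬ Co (ω.erase e) (eu e) (ev e)) :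
    Co (du (LB (H75.TwoArm.BB M) (ω.erase e) (eu e)) (insert e ω)) (fi (zu e)) (fi (zv e)) := by
  have hu := H75.Four.PivAux.vx_zu he
  have hv := H75.Four.PivAux.vx_zv he
  have := dual_of_sepc he heM hω (Or.inl ⟨rfl, rfl⟩) (by rw [hu, hv]; exact h)
  rwa [hu] at this

/-- if the ends of `e` are not connected off `e` then its faces are joined by a closed dual path -/
theorem dual_of_sep {M : ℤ} {ω : Finset (ℤ × ℤ)} {e : ℤ × ℤ} (he : (e.1 + e.2) % 2 = 1)
    (heM : e ∈ H75.TwoArm.BB (M - 1)) (hω : ω ⊆ H75.TwoArm.BB (M - 1))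
    (h : ¬ Co (ω.erase e) (eu e) (ev e)) :
    Co (du (H75.TwoArm.BB M) (insert e ω)) (fi (zu e)) (fi (zv e)) := by
  refine (dual_of_sep' he heM hω h).mono ?_
  unfold du
  exact map_subset_map.2 (sdiff_subset_sdiff (fun l hl => (mem_LB.1 hl).1) subset_rfl)

/-- **exact duality in every environment** -/
theorem sep_iff_dual {M : ℤ} {ω : Finset (ℤ × ℤ)} {e : ℤ × ℤ} (he : (e.1 + e.2) % 2 = 1)
    (heM : e ∈ H75.TwoArm.BB (M - 1)) (hω : ω ⊆ H75.TwoArm.BB (M - 1)) :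
    ¬ Co (ω.erase e) (eu e) (ev e) ↔
      Co (du (H75.TwoArm.BB M) (insert e ω)) (fi (zu e)) (fi (zv e)) := by
  refine ⟨dual_of_sep he heM hω, fun h => ?_⟩
  have := Pool.Agent.H81.NC.sep_of_dual he h
  rwa [H75.Four.PivAux.vx_zu he, H75.Four.PivAux.vx_zv he] at this

end Pool.Agent.H65.Dom
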