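import Mathlib
import Pool.Agent.H65.Dom.Dual
import Pool.Agent.H47.NC.Basic
import Pool.Agent.H99.NC.PrP

set_option autoImplicit false
open Finset

/-! Cluster calculus: exploration of the (primal or dual) cluster of a set as a stopping set, in an
arbitrary environment `ω ∪ W` (`ω ⊆ E` random, `W` fixed open, all other labels closed). -/

namespace Pool.Agent.H65.Dom

open Pool.Agent.H75.Perc Pool.Agent.H75.TwoArm Pool.Agent.H75.Four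

/-- the cluster of `S` -/
def Cl (κ : Finset (ℤ × ℤ)) (S : ℤ × ℤ → Prop) (g : ℤ × ℤ) : Prop := ∃ s, S s ∧ Co κ s g

lemma Cl.mono {κ κ' : Finset (ℤ × ℤ)} (h : κ ⊆ κ') {S : ℤ × ℤ → Prop} {g : ℤ × ℤ}
    (hg : Cl κ S g) : Cl κ' S g := by
  obtain ⟨s, h1, h2⟩ := hg
  exact ⟨s, h1, h2.mono h⟩

lemma Cl.tr {κ : Finset (ℤ × ℤ)} {S : ℤ × ℤ → Prop} {f g : ℤ × ℤ}
    (hg : Cl κ S f) (h : Co κ f g) : Cl κ S g := by
  obtain ⟨s, h1, h2⟩ := hg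
  exact ⟨s, h1, h2.trans h⟩

/-- two label sets which agree on the labels that touch the cluster have the same cluster -/
lemma Cl_congr {κ κ' : Finset (ℤ × ℤ)} {S : ℤ × ℤ → Prop}
    (h : ∀ f g, IsUnit4 (g - f) → Cl κ S f → (f + g ∈ κ ↔ f + g ∈ κ')) (g : ℤ × ℤ) :
    Cl κ' S g ↔ Cl κ S g := by
  constructor
  · rintro ⟨s, hs, hg⟩
    induction hg with
    | refl => exact ⟨s, hs, Co.refl _ _⟩
    | @tail a b _ hab ih =>
      exact ih.tr (Relation.ReflTransGen.single ⟨hab.1, (h a b hab.1 ih).2 hab.2⟩)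
  · rintro ⟨s, hs, hg⟩
    have key : Cl κ S g ∧ Cl κ' S g := by
      induction hg with
      | refl => exact ⟨⟨s, hs, Co.refl _ _⟩, ⟨s, hs, Co.refl _ _⟩⟩
      | @tail a b _ hab ih =>
        exact ⟨ih.1.tr (Relation.ReflTransGen.single hab),
          ih.2.tr (Relation.ReflTransGen.single ⟨hab.1, (h a b hab.1 ih.1).1 hab.2⟩)⟩
    exact key.2

/-! ### faces and ends of labels -/

lemma faces_zu {l : ℤ × ℤ} (hl : (l.1 + l.2) % 2 = 1) :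
    IsUnit4 (fi (zv l) - fi (zu l)) ∧ fi (zu l) + fi (zv l) = l + (1, 1) := by
  have h := H75.Four.PivAux.fi_zu_zv hl
  exact ⟨h.1, sub_eq_iff_eq_add.1 h.2⟩

/-- the two faces of a label are the only ones with this sum -/
lemma faces_of {l f g : ℤ × ℤ} (hl : (l.1 + l.2) % 2 = 1) (h : IsUnit4 (g - f))
    (hfg : f + g = l + (1, 1)) :
    (f = fi (zu l) ∧ g = fi (zv l)) ∨ (f = fi (zv l) ∧ g = fi (zu l)) :=
  H47.NC.ends_unique (faces_zu hl).1 h (hfg.trans (faces_zu hl).2.symm)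

lemma ends_of {l f g : ℤ × ℤ} (hl : (l.1 + l.2) % 2 = 1) (h : IsUnit4 (g - f))
    (hfg : f + g = l) : (f = eu l ∧ g = ev l) ∨ (f = ev l ∧ g = eu l) :=
  H47.NC.ends_unique (H75.Four.PivAux.eu_ev hl).1 h (hfg.trans (H75.Four.PivAux.eu_ev hl).2.symm)

lemma odd_of_unit {u v : ℤ × ℤ} (h : IsUnit4 (v - u)) : ((u + v).1 + (u + v).2) % 2 = 1 := by
  have := unit_cases h
  simp only [Prod.fst_add, Prod.snd_add]
  omega

lemma unit4_symm {u v : ℤ × ℤ} (h : IsUnit4 (v - u)) : IsUnit4 (u - v) := by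
  simp only [IsUnit4, Prod.ext_iff, Prod.fst_sub, Prod.snd_sub] at h ⊢
  omega

lemma mem_du_iff' {B η : Finset (ℤ × ℤ)} {x : ℤ × ℤ} :
    x ∈ du B η ↔ x - (1, 1) ∈ B ∧ x - (1, 1) ∉ η := by
  unfold du
  rw [mem_map]
  constructor
  · rintro ⟨l, hl, rfl⟩
    have : sh1 l - (1, 1) = l := by refine Prod.ext ?_ ?_ <;> simp [sh1]
    rw [this]
    exact mem_sdiff.1 hl
  · rintro ⟨h1, h2⟩
    exact ⟨x - (1, 1), mem_sdiff.2 ⟨h1, h2⟩, by refine Prod.ext ?_ ?_ <;> simp [sh1]⟩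

lemma du_anti {B η η' : Finset (ℤ × ℤ)} (h : η ⊆ η') : du B η' ⊆ du B η := by
  unfold du
  exact map_subset_map.2 (sdiff_subset_sdiff subset_rfl h)

lemma du_mono {B B' η : Finset (ℤ × ℤ)} (h : B ⊆ B') : du B η ⊆ du B' η := by
  unfold du
  exact map_subset_map.2 (sdiff_subset_sdiff h subset_rfl)

lemma du_congr {B B' η η' : Finset (ℤ × ℤ)} (h : B ⊆ B') (h' : ∀ l ∈ B, l ∈ η' → l ∈ η) :
    du B η ⊆ du B' η' := by
  intro x hx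
  rw [mem_du_iff'] at hx ⊢
  exact ⟨h hx.1, fun h1 => hx.2 (h' _ hx.1 h1)⟩

/-- a dual step crosses a closed label -/
lemma ad_du {B η : Finset (ℤ × ℤ)} {f g : ℤ × ℤ} (h : Ad (du B η) f g) :
    ∃ l, l ∈ B ∧ l ∉ η ∧ (l.1 + l.2) % 2 = 1 ∧ f + g = l + (1, 1) ∧
      ((f = fi (zu l) ∧ g = fi (zv l)) ∨ (f = fi (zv l) ∧ g = fi (zu l))) := by
  have h1 := mem_du_iff'.1 h.2
  have h2 := odd_of_unit h.1
  have h3 : ((f + g - (1, 1)).1 + (f + g - (1, 1)).2) % 2 = 1 := by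
    simp only [Prod.fst_sub, Prod.snd_sub]; omega
  exact ⟨f + g - (1, 1), h1.1, h1.2, h3, by rw [sub_add_cancel],
    faces_of h3 h.1 (by rw [sub_add_cancel])⟩

/-- a closed label joins its two faces -/
lemma co_faces {B η : Finset (ℤ × ℤ)} {l : ℤ × ℤ} (hl : (l.1 + l.2) % 2 = 1) (h1 : l ∈ B)
    (h2 : l ∉ η) : Co (du B η) (fi (zu l)) (fi (zv l)) := by
  have h := faces_zu hl
  refine Relation.ReflTransGen.single ⟨h.1, ?_⟩
  rw [h.2]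
  exact H75.TwoArm.StrandAux.mem_du h1 h2

/-! ### the explored labels -/

/-- faces joined to `S` by closed dual paths of labels of the box `BB M` -/
def Ph (M : ℤ) (η : Finset (ℤ × ℤ)) (S : ℤ × ℤ → Prop) : ℤ × ℤ → Prop :=
  Cl (du (H75.TwoArm.BB M) η) S

lemma Ph.anti {M : ℤ} {η η' : Finset (ℤ × ℤ)} (h : η ⊆ η') {S : ℤ × ℤ → Prop} {g : ℤ × ℤ}
    (hg : Ph M η' S g) : Ph M η S g := Cl.mono (du_anti h) hg

open Classical in
/-- the labels of `E` next to the dual cluster of `S` -/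
noncomputable def UP (M : ℤ) (E η : Finset (ℤ × ℤ)) (S : ℤ × ℤ → Prop) : Finset (ℤ × ℤ) :=
  E.filter (fun l => Ph M η S (fi (zu l)) ∨ Ph M η S (fi (zv l)))

lemma mem_UP {M : ℤ} {E η : Finset (ℤ × ℤ)} {S : ℤ × ℤ → Prop} {l : ℤ × ℤ} :
    l ∈ UP M E η S ↔ l ∈ E ∧ (Ph M η S (fi (zu l)) ∨ Ph M η S (fi (zv l))) := by
  classical
  unfold UP
  rw [mem_filter]

open Classical in
/-- the labels of `E` next to the open cluster of `S` -/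
noncomputable def UO (E η : Finset (ℤ × ℤ)) (S : ℤ × ℤ → Prop) : Finset (ℤ × ℤ) :=
  E.filter (fun l => Cl η S (eu l) ∨ Cl η S (ev l))

lemma mem_UO {E η : Finset (ℤ × ℤ)} {S : ℤ × ℤ → Prop} {l : ℤ × ℤ} :
    l ∈ UO E η S ↔ l ∈ E ∧ (Cl η S (eu l) ∨ Cl η S (ev l)) := by
  classical
  unfold UO
  rw [mem_filter]

/-- the dual cluster only depends on the labels next to it -/
theorem Ph_congr {M : ℤ} {η η' : Finset (ℤ × ℤ)} {S : ℤ × ℤ → Prop}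
    (h : ∀ l ∈ H75.TwoArm.BB M, (Ph M η S (fi (zu l)) ∨ Ph M η S (fi (zv l))) →
      (l ∈ η ↔ l ∈ η')) (g : ℤ × ℤ) : Ph M η' S g ↔ Ph M η S g := by
  refine Cl_congr (fun a b hab ha => ?_) g
  rw [mem_du_iff', mem_du_iff']
  by_cases hB : a + b - (1, 1) ∈ H75.TwoArm.BB M
  · have h2 := odd_of_unit hab
    have h3 : ((a + b - (1, 1)).1 + (a + b - (1, 1)).2) % 2 = 1 := by
      simp only [Prod.fst_sub, Prod.snd_sub]; omega
    have h4 := faces_of (l := a + b - (1, 1)) h3 hab (by rw [sub_add_cancel])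
    have h5 : Ph M η S (fi (zu (a + b - (1, 1)))) ∨ Ph M η S (fi (zv (a + b - (1, 1)))) := by
      rcases h4 with ⟨h4, -⟩ | ⟨h4, -⟩
      · left; rw [← h4]; exact ha
      · right; rw [← h4]; exact ha
    rw [h _ hB h5]
  · tauto

/-- environment form -/
theorem Ph_env {M : ℤ} {E W ω ω' : Finset (ℤ × ℤ)} {S : ℤ × ℤ → Prop} (hω : ω ⊆ E) (hω' : ω' ⊆ E)
    (h : ∀ l ∈ UP M E (ω ∪ W) S, (l ∈ ω ↔ l ∈ ω')) (g : ℤ × ℤ) :
    Ph M (ω' ∪ W) S g ↔ Ph M (ω ∪ W) S g := by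
  refine Ph_congr (fun l _ hl => ?_) g
  rw [mem_union, mem_union]
  by_cases hE : l ∈ E
  · rw [h l (mem_UP.2 ⟨hE, hl⟩)]
  · have h1 : l ∉ ω := fun h1 => hE (hω h1)
    have h2 : l ∉ ω' := fun h1 => hE (hω' h1)
    tauto

theorem UP_env {M : ℤ} {E W ω ω' : Finset (ℤ × ℤ)} {S : ℤ × ℤ → Prop} (hω : ω ⊆ E) (hω' : ω' ⊆ E)
    (h : ∀ l ∈ UP M E (ω ∪ W) S, (l ∈ ω ↔ l ∈ ω')) :
    UP M E (ω' ∪ W) S = UP M E (ω ∪ W) S := by
  ext l
  rw [mem_UP, mem_UP, Ph_env hω hω' h, Ph_env hω hω' h]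

lemma mix_sub {α : Type*} [DecidableEq α] {E U ω ω' : Finset α} (hω : ω ⊆ E) (hω' : ω' ⊆ E) :
    H75.Perc.mix U ω ω' ⊆ E := by
  intro e he
  rw [H75.Perc.mem_mix] at he
  rcases he with he | he
  · exact hω he.1
  · exact hω' he.1

/-- the labels next to the dual cluster are a stopping set -/
theorem UP_mix (M : ℤ) {E W ω ω' : Finset (ℤ × ℤ)} (S : ℤ × ℤ → Prop) (hω : ω ⊆ E)
    (hω' : ω' ⊆ E) :
    UP M E (H75.Perc.mix (UP M E (ω ∪ W) S) ω ω' ∪ W) S = UP M E (ω ∪ W) S :=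
  UP_env hω (mix_sub hω hω') fun l hl => by rw [H75.Perc.mem_mix]; tauto

theorem Ph_mix (M : ℤ) {E W ω ω' : Finset (ℤ × ℤ)} (S : ℤ × ℤ → Prop) (hω : ω ⊆ E)
    (hω' : ω' ⊆ E) (g : ℤ × ℤ) :
    Ph M (H75.Perc.mix (UP M E (ω ∪ W) S) ω ω' ∪ W) S g ↔ Ph M (ω ∪ W) S g :=
  Ph_env hω (mix_sub hω hω') (fun l hl => by rw [H75.Perc.mem_mix]; tauto) g

/-- the same for open clusters -/
theorem Cl_env {E W ω ω' : Finset (ℤ × ℤ)} {S : ℤ × ℤ → Prop} (hω : ω ⊆ E) (hω' : ω' ⊆ E)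
    (h : ∀ l ∈ UO E (ω ∪ W) S, (l ∈ ω ↔ l ∈ ω')) (g : ℤ × ℤ) :
    Cl (ω' ∪ W) S g ↔ Cl (ω ∪ W) S g := by
  refine Cl_congr (fun a b hab ha => ?_) g
  rw [mem_union, mem_union]
  by_cases hE : a + b ∈ E
  · rw [h _ (mem_UO.2 ⟨hE, ?_⟩)]
    rcases ends_of (odd_of_unit hab) hab rfl with ⟨h1, -⟩ | ⟨h1, -⟩
    · left; rw [← h1]; exact ha
    · right; rw [← h1]; exact ha
  · have h1 : a + b ∉ ω := fun h1 => hE (hω h1)
    have h2 : a + b ∉ ω' := fun h1 => hE (hω' h1)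
    tauto

theorem UO_env {E W ω ω' : Finset (ℤ × ℤ)} {S : ℤ × ℤ → Prop} (hω : ω ⊆ E) (hω' : ω' ⊆ E)
    (h : ∀ l ∈ UO E (ω ∪ W) S, (l ∈ ω ↔ l ∈ ω')) :
    UO E (ω' ∪ W) S = UO E (ω ∪ W) S := by
  ext l
  rw [mem_UO, mem_UO, Cl_env hω hω' h, Cl_env hω hω' h]

theorem UO_mix {E W ω ω' : Finset (ℤ × ℤ)} (S : ℤ × ℤ → Prop) (hω : ω ⊆ E)
    (hω' : ω' ⊆ E) :
    UO E (H75.Perc.mix (UO E (ω ∪ W) S) ω ω' ∪ W) S = UO E (ω ∪ W) S :=
  UO_env hω (mix_sub hω hω') fun l hl => by rw [H75.Perc.mem_mix]; tauto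

theorem Cl_mix {E W ω ω' : Finset (ℤ × ℤ)} (S : ℤ × ℤ → Prop) (hω : ω ⊆ E)
    (hω' : ω' ⊆ E) (g : ℤ × ℤ) :
    Cl (H75.Perc.mix (UO E (ω ∪ W) S) ω ω' ∪ W) S g ↔ Cl (ω ∪ W) S g :=
  Cl_env hω (mix_sub hω hω') (fun l hl => by rw [H75.Perc.mem_mix]; tauto) g

end Pool.Agent.H65.Dom
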