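import Mathlib
import Pool.Agent.H65.Dom.Clu

set_option autoImplicit false
open Finset

/-! Extremal (leftmost) open paths in arbitrary environments, through the dual cluster `Φ` of the left
face of a root edge `e0`: crossing event, restriction property, conditional connection. No curve is
ever drawn: the leftmost open path is the boundary of `Φ`. -/

namespace Pool.Agent.H65.Dom

open Pool.Agent.H75.Perc Pool.Agent.H75.TwoArm Pool.Agent.H75.Four

/-- the two faces of `e0` in some order -/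
def Fc (e0 fL fR : ℤ × ℤ) : Prop :=
  (fL = fi (zu e0) ∧ fR = fi (zv e0)) ∨ (fL = fi (zv e0) ∧ fR = fi (zu e0))

lemma Fc.symm {e0 fL fR : ℤ × ℤ} (h : Fc e0 fL fR) : Fc e0 fR fL := by
  unfold Fc at h ⊢; tauto

lemma exists_Fc (e0 : ℤ × ℤ) : Fc e0 (fi (zu e0)) (fi (zv e0)) := Or.inl ⟨rfl, rfl⟩

/-- the ends of the root edge are joined iff its right face is not in the dual cluster of the left
one -/
theorem conn_iff {M : ℤ} {η : Finset (ℤ × ℤ)} {e0 fL fR : ℤ × ℤ} (he : (e0.1 + e0.2) % 2 = 1)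
    (heM : e0 ∈ H75.TwoArm.BB (M - 1)) (hη : η ⊆ H75.TwoArm.BB (M - 1)) (h0 : e0 ∈ η)
    (hf : Fc e0 fL fR) :
    Co (η.erase e0) (eu e0) (ev e0) ↔ ¬ Ph M η (fun g => g = fL) fR := by
  have h1 := sep_iff_dual he heM hη
  rw [insert_eq_of_mem h0] at h1
  rw [← not_iff_not, h1, not_not]
  unfold Ph Cl
  rcases hf with ⟨rfl, rfl⟩ | ⟨rfl, rfl⟩
  · constructor
    · exact fun h => ⟨_, rfl, h⟩
    · rintro ⟨s, rfl, h⟩
      exact h
  · constructor
    · exact fun h => ⟨_, rfl, h.symm⟩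
    · rintro ⟨s, rfl, h⟩
      exact h.symm

/-- **Restriction property.** `A` = a set of labels which, when closed, is joined to the right face by
dual paths whatever the other labels do (`Emax` = all labels that may be open). The ends of the root
edge are joined off `A` iff they are joined and the leftmost path does not touch `A`. -/
theorem restr {M : ℤ} {η A Emax : Finset (ℤ × ℤ)} {fL fR : ℤ × ℤ}
    (hη : η ⊆ Emax) (hA : A ⊆ H75.TwoArm.BB M)
    (hatt : ∀ l ∈ A, Co (du (H75.TwoArm.BB M) (Emax \ A)) (fi (zu l)) fR) :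
    ¬ Ph M (η \ A) (fun g => g = fL) fR ↔ (¬ Ph M η (fun g => g = fL) fR ∧
      ∀ l ∈ A, ¬ Ph M η (fun g => g = fL) (fi (zu l)) ∧ ¬ Ph M η (fun g => g = fL) (fi (zv l))) := by
  constructor
  · intro h
    refine ⟨fun h1 => h (h1.anti sdiff_subset), fun l hl => ?_⟩
    have h1 : Co (du (H75.TwoArm.BB M) (η \ A)) (fi (zu l)) fR :=
      (hatt l hl).mono (du_anti (sdiff_subset_sdiff hη subset_rfl))
    have hodd : (l.1 + l.2) % 2 = 1 := (HOrderAux.mem_BB'.1 (hA hl)).2.2
    have h2 : Co (du (H75.TwoArm.BB M) (η \ A)) (fi (zu l)) (fi (zv l)) :=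
      co_faces hodd (hA hl) (fun h2 => (mem_sdiff.1 h2).2 hl)
    constructor
    · intro h3
      exact h (Cl.tr (h3.anti sdiff_subset) h1)
    · intro h3
      exact h (Cl.tr (h3.anti sdiff_subset) (h2.symm.trans h1))
  · rintro ⟨h1, h2⟩ h3
    refine h1 ((Ph_congr (η := η) (η' := η \ A) (fun l _ hl => ?_) fR).1 h3)
    rw [mem_sdiff]
    constructor
    · intro h4
      refine ⟨h4, fun h5 => ?_⟩
      rcases hl with hl | hl
      · exact (h2 l h5).1 hl
      · exact (h2 l h5).2 hl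
    · exact fun h4 => h4.1

/-- closed under unions: the sets not touched by the leftmost path -/
theorem restr_union {M : ℤ} {η A A' Emax : Finset (ℤ × ℤ)} {fL fR : ℤ × ℤ}
    (hη : η ⊆ Emax) (hA : A ⊆ H75.TwoArm.BB M) (hA' : A' ⊆ H75.TwoArm.BB M)
    (hatt : ∀ l ∈ A, Co (du (H75.TwoArm.BB M) (Emax \ A)) (fi (zu l)) fR)
    (hatt' : ∀ l ∈ A', Co (du (H75.TwoArm.BB M) (Emax \ A')) (fi (zu l)) fR) :
    ¬ Ph M (η \ (A ∪ A')) (fun g => g = fL) fR ↔
      (¬ Ph M (η \ A) (fun g => g = fL) fR ∧ ¬ Ph M (η \ A') (fun g => g = fL) fR) := by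
  have hU : ∀ l ∈ A ∪ A', Co (du (H75.TwoArm.BB M) (Emax \ (A ∪ A'))) (fi (zu l)) fR := by
    intro l hl
    rcases mem_union.1 hl with hl | hl
    · exact (hatt l hl).mono (du_anti (sdiff_subset_sdiff subset_rfl subset_union_left))
    · exact (hatt' l hl).mono (du_anti (sdiff_subset_sdiff subset_rfl subset_union_right))
  rw [restr hη (union_subset hA hA') hU, restr hη hA hatt, restr hη hA' hatt']
  constructor
  · rintro ⟨h1, h2⟩
    exact ⟨⟨h1, fun l hl => h2 l (mem_union_left _ hl)⟩,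
      ⟨h1, fun l hl => h2 l (mem_union_right _ hl)⟩⟩
  · rintro ⟨⟨h1, h2⟩, ⟨-, h3⟩⟩
    refine ⟨h1, fun l hl => ?_⟩
    rcases mem_union.1 hl with hl | hl
    · exact h2 l hl
    · exact h3 l hl

/-! ### faces around a cluster -/

/-- the four corners of a vertex -/
lemma corners_vx {c1 c2 : ℤ × ℤ} (h : vx c1 = vx c2) :
    c2 = c1 ∨ c2 = nxC c1 ∨ c2 = nxC (nxC c1) ∨ c2 = nxC (nxC (nxC c1)) := by
  have h1 := congrArg Prod.fst h
  have h2 := congrArg Prod.snd h
  unfold vx at h1 h2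
  simp only at h1 h2
  unfold nxC
  rcases Int.emod_two_eq_zero_or_one c1.1 with h3 | h3 <;>
  rcases Int.emod_two_eq_zero_or_one c1.2 with h4 | h4
  · have e1 : (c1.1 + 1) % 2 = 1 := by omega
    have e2 : (c1.2 + 1) % 2 = 1 := by omega
    have e3 : ¬ ((c1.1 + 1) % 2 = 0) := by omega
    have e4 : ¬ ((c1.2 + 1) % 2 = 0) := by omega
    simp only [h3, h4, e3, e4, if_true, if_false, Prod.ext_iff]
    omega
  · have e1 : ¬ (c1.2 % 2 = 0) := by omega
    have e2 : (c1.2 - 1) % 2 = 0 := by omega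
    have e3 : ¬ ((c1.1 + 1) % 2 = 0) := by omega
    simp only [h3, e1, e2, e3, if_true, if_false, Prod.ext_iff]
    omega
  · have e1 : ¬ (c1.1 % 2 = 0) := by omega
    have e2 : ¬ ((c1.2 + 1) % 2 = 0) := by omega
    have e3 : (c1.1 - 1) % 2 = 0 := by omega
    simp only [h4, e1, e2, e3, if_true, if_false, Prod.ext_iff]
    omega
  · have e1 : ¬ (c1.1 % 2 = 0) := by omega
    have e2 : ¬ (c1.2 % 2 = 0) := by omega
    have e3 : (c1.1 - 1) % 2 = 0 := by omega
    have e4 : (c1.2 - 1) % 2 = 0 := by omega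
    simp only [e1, e2, e3, e4, if_true, if_false, Prod.ext_iff]
    omega

/-- if all labels at a vertex are closed, all faces at this vertex are joined -/
lemma corners_co {B η : Finset (ℤ × ℤ)} {c1 c2 : ℤ × ℤ}
    (h : ∀ c, vx c = vx c1 → lab c ∈ B ∧ lab c ∉ η) (hc : vx c1 = vx c2) :
    Co (du B η) (fi c1) (fi c2) := by
  have step : ∀ c, vx c = vx c1 → Co (du B η) (fi c) (fi (nxC c)) := by
    intro c hc
    have h1 := H75.TwoArm.StrandAux.fi_nxC c
    refine Relation.ReflTransGen.single ⟨h1.1, ?_⟩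
    rw [h1.2]
    exact H75.TwoArm.StrandAux.mem_du (h c hc).1 (h c hc).2
  have v1 : vx (nxC c1) = vx c1 := H75.TwoArm.StrandAux.vx_nxC c1
  have v2 : vx (nxC (nxC c1)) = vx c1 := (H75.TwoArm.StrandAux.vx_nxC _).trans v1
  rcases corners_vx hc with rfl | rfl | rfl | rfl
  · exact Co.refl _ _
  · exact step _ rfl
  · exact (step _ rfl).trans (step _ v1)
  · exact ((step _ rfl).trans (step _ v1)).trans (step _ v2)

/-- both faces of a label touch both ends -/
lemma exists_corner {l v g : ℤ × ℤ} (hl : (l.1 + l.2) % 2 = 1) (hv : v = eu l ∨ v = ev l)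
    (hg : g = fi (zu l) ∨ g = fi (zv l)) : ∃ c, vx c = v ∧ fi c = g := by
  obtain ⟨-, -, hlu, hlv, hvu, hvv⟩ := opc_zu hl
  have hu := vx_nxO (zu l)
  have hv' := vx_nxO (zv l)
  rw [hlu, hvu] at hu
  rw [hlv, hvv] at hv'
  have h1 : vx (nxO (zu l)) = ev l := by
    have := (H75.Four.PivAux.eu_ev hl).2
    exact add_left_cancel (hu.2.trans this.symm)
  have h2 : vx (nxO (zv l)) = eu l := by
    have := (H75.Four.PivAux.eu_ev hl).2
    rw [add_comm] at this
    exact add_left_cancel (hv'.2.trans this.symm)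
  rcases hv with rfl | rfl <;> rcases hg with rfl | rfl
  · exact ⟨zu l, hvu, rfl⟩
  · exact ⟨nxO (zv l), h2, H75.TwoArm.StrandAux.fi_nxO _⟩
  · exact ⟨nxO (zu l), h1, H75.TwoArm.StrandAux.fi_nxO _⟩
  · exact ⟨zv l, hvv, rfl⟩

/-- the label of a corner at a vertex of the box -/
lemma lab_box {M : ℤ} {c : ℤ × ℤ} (h : inB (-(M - 1)) (M - 1) (-(M - 1)) (M - 1) (vx c)) :
    lab c ∈ H75.TwoArm.BB M := by
  unfold inB vx at h
  simp only at h
  rw [HOrderAux.mem_BB']
  rcases ty_cases c with ⟨-, h1, h2, h3, -, -⟩ | ⟨-, h1, h2, h3, -, -⟩ | ⟨-, h1, h2, h3, -, -⟩ |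
      ⟨-, h1, h2, h3, -, -⟩ <;> rw [h3] <;> simp only <;> omega

/-- if all labels with an end in the cluster of `y` are closed, then all faces around this cluster are
joined -/
lemma around {M : ℤ} {κ η : Finset (ℤ × ℤ)} {y : ℤ × ℤ} (hκ : κ ⊆ H75.TwoArm.BB (M - 1))
    (hy : inB (-(M - 1)) (M - 1) (-(M - 1)) (M - 1) y)
    (hη : ∀ l ∈ η, (l.1 + l.2) % 2 = 1 → ¬ Co κ y (eu l) ∧ ¬ Co κ y (ev l)) {c c' : ℤ × ℤ}
    (hc : vx c = y) (hc' : Co κ y (vx c')) : Co (du (H75.TwoArm.BB M) η) (fi c) (fi c') := by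
  have hcl : ∀ c1, Co κ y (vx c1) → lab c1 ∈ H75.TwoArm.BB M ∧ lab c1 ∉ η := by
    intro c1 h1
    have hb : inB (-(M - 1)) (M - 1) (-(M - 1)) (M - 1) (vx c1) := Co.inB hκ hy h1
    have hB := lab_box hb
    refine ⟨hB, fun h2 => ?_⟩
    have h3 := hη _ h2 (HOrderAux.mem_BB'.1 hB).2.2
    rcases lab_ends c1 with h4 | h4
    · exact h3.1 (by rw [← h4]; exact h1)
    · exact h3.2 (by rw [← h4]; exact h1)
  have key : ∀ v, Co κ y v → ∀ c', vx c' = v → Co (du (H75.TwoArm.BB M) η) (fi c) (fi c') := by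
    intro v hv
    induction hv with
    | refl =>
      intro c' hc'
      refine corners_co (fun c1 h1 => hcl c1 ?_) (hc.trans hc'.symm)
      rw [h1, hc]
      exact Co.refl _ _
    | @tail a b hya hab ih =>
      intro c' hc'
      have hodd := odd_of_unit hab.1
      obtain ⟨h1, h2⟩ : (a = eu (a + b) ∨ a = ev (a + b)) ∧ (b = eu (a + b) ∨ b = ev (a + b)) := by
        rcases ends_of hodd hab.1 rfl with ⟨h1, h2⟩ | ⟨h1, h2⟩
        · exact ⟨Or.inl h1, Or.inr h2⟩
        · exact ⟨Or.inr h1, Or.inl h2⟩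
      obtain ⟨ca, ha1, ha2⟩ := exists_corner hodd h1 (Or.inl rfl)
      obtain ⟨cb, hb1, hb2⟩ := exists_corner hodd h2 (Or.inl rfl)
      have h3 := ih ca ha1
      have h4 : Co (du (H75.TwoArm.BB M) η) (fi cb) (fi c') := by
        refine corners_co (fun c1 h1 => hcl c1 ?_) (hb1.trans hc'.symm)
        rw [h1, hb1]
        exact Relation.ReflTransGen.tail hya hab
      rw [hb2, ← ha2] at h4
      exact h3.trans h4
  exact key _ hc' c' rfl

/-- On the crossing event: a vertex `y` attached on the right which is joined to a vertex next to the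
dual cluster of the left face is joined to the target. -/
theorem right_conn {M : ℤ} {η Emax : Finset (ℤ × ℤ)} {e0 fL fR : ℤ × ℤ}
    (he : (e0.1 + e0.2) % 2 = 1) (heM : e0 ∈ H75.TwoArm.BB (M - 1))
    (hη : η ⊆ H75.TwoArm.BB (M - 1)) (hE : η ⊆ Emax) (h0 : e0 ∈ η) (hf : Fc e0 fL fR)
    (hc : ¬ Ph M η (fun g => g = fL) fR) {y c v c' : ℤ × ℤ}
    (hy : inB (-(M - 1)) (M - 1) (-(M - 1)) (M - 1) y) (hyc : vx c = y)
    (hatt : Co (du (H75.TwoArm.BB M) Emax) (fi c) fR)
    (hyv : Co (η.erase e0) y v) (hvc : vx c' = v) (hg : Ph M η (fun g => g = fL) (fi c')) :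
    Co (η.erase e0) y (ev e0) := by
  classical
  by_contra hyt
  have hxt := (conn_iff he heM hη h0 hf).2 hc
  have hyx : ¬ Co (η.erase e0) y (eu e0) := fun h => hyt (h.trans hxt)
  set A := LB (H75.TwoArm.BB M) (η.erase e0) y with hAdef
  have heM' : e0 ∈ H75.TwoArm.BB M := by
    rw [HOrderAux.mem_BB'] at heM ⊢; omega
  have h0A : e0 ∉ A := by
    intro h
    rcases (mem_LB.1 h).2 with h1 | h1
    · exact hyx h1
    · exact hyt h1
  have h0' : e0 ∈ η \ A := mem_sdiff.2 ⟨h0, h0A⟩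
  have hsub : η \ A ⊆ η := sdiff_subset
  have hxt' : Co ((η \ A).erase e0) (eu e0) (ev e0) := by
    have key : ∀ z, Co (η.erase e0) (eu e0) z → Co ((η \ A).erase e0) (eu e0) z := by
      intro z hz
      induction hz with
      | refl => exact Co.refl _ _
      | @tail a b hxa hab ih =>
        refine Relation.ReflTransGen.tail ih ⟨hab.1, ?_⟩
        have h1 := mem_erase.1 hab.2
        refine mem_erase.2 ⟨h1.1, mem_sdiff.2 ⟨h1.2, fun h2 => ?_⟩⟩
        have hxb : Co (η.erase e0) (eu e0) b := Relation.ReflTransGen.tail hxa hab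
        have h3 := (mem_LB.1 h2).2
        rcases ends_of (odd_of_unit hab.1) hab.1 rfl with ⟨h4, h5⟩ | ⟨h4, h5⟩
        · rw [← h4, ← h5] at h3
          rcases h3 with h3 | h3
          · exact hyx (h3.trans (Co.symm hxa))
          · exact hyx (h3.trans (Co.symm hxb))
        · rw [← h4, ← h5] at h3
          rcases h3 with h3 | h3
          · exact hyx (h3.trans (Co.symm hxb))
          · exact hyx (h3.trans (Co.symm hxa))
    exact key _ hxt
  have hno := (conn_iff he heM (hsub.trans hη) h0' hf).1 hxt'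
  have har : Co (du (H75.TwoArm.BB M) (η \ A)) (fi c) (fi c') := by
    refine around (κ := η.erase e0) ((erase_subset _ _).trans hη) hy ?_ hyc (by rw [hvc]; exact hyv)
    intro l hl _
    have h1 := mem_sdiff.1 hl
    have h2 : l ∈ H75.TwoArm.BB M := by
      have := hη h1.1
      rw [HOrderAux.mem_BB'] at this ⊢; omega
    constructor
    · exact fun h3 => h1.2 (mem_LB.2 ⟨h2, Or.inl h3⟩)
    · exact fun h3 => h1.2 (mem_LB.2 ⟨h2, Or.inr h3⟩)
  refine hno (Cl.tr (Cl.tr (hg.anti hsub) har.symm) (hatt.mono (du_anti (hsub.trans hE))))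

/-- a path either uses only the labels of `κ0` or meets the first label outside -/
lemma first_out {κ κ0 : Finset (ℤ × ℤ)} {y z : ℤ × ℤ} (h : Co κ y z) :
    Co (κ ∩ κ0) y z ∨ ∃ v l, Co (κ ∩ κ0) y v ∧ l ∈ κ ∧ l ∉ κ0 ∧ (l.1 + l.2) % 2 = 1 ∧
      (v = eu l ∨ v = ev l) := by
  induction h with
  | refl => exact Or.inl (Co.refl _ _)
  | @tail a b _ hab ih =>
    rcases ih with ih | ih
    · by_cases h1 : a + b ∈ κ0
      · exact Or.inl (Relation.ReflTransGen.tail ih ⟨hab.1, mem_inter.2 ⟨hab.2, h1⟩⟩)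
      · refine Or.inr ⟨a, a + b, ih, hab.2, h1, odd_of_unit hab.1, ?_⟩
        rcases ends_of (odd_of_unit hab.1) hab.1 rfl with ⟨h4, -⟩ | ⟨h4, -⟩
        · exact Or.inl h4
        · exact Or.inr h4
    · exact Or.inr ih

/-- **Conditional connection given the leftmost path.** On the crossing event, for `y` attached on the
right: `y` is joined to the target iff it is joined by unexplored labels to the target or to an end of
an explored open label. -/
theorem right_iff {M : ℤ} {E W ω : Finset (ℤ × ℤ)} {e0 fL fR : ℤ × ℤ}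
    (he : (e0.1 + e0.2) % 2 = 1) (hEM : E ⊆ H75.TwoArm.BB (M - 1))
    (hWM : W ⊆ H75.TwoArm.BB (M - 1)) (hω : ω ⊆ E) (h0 : e0 ∈ W)
    (hf : Fc e0 fL fR)
    (hc : ¬ Ph M (ω ∪ W) (fun g => g = fL) fR) {y c : ℤ × ℤ}
    (hy : inB (-(M - 1)) (M - 1) (-(M - 1)) (M - 1) y) (hyc : vx c = y)
    (hatt : Co (du (H75.TwoArm.BB M) (E ∪ W)) (fi c) fR) :
    Co ((ω ∪ W).erase e0) y (ev e0) ↔
      ∃ v, Co (((ω \ UP M E (ω ∪ W) (fun g => g = fL)) ∪ W).erase e0) y v ∧
        (v = ev e0 ∨ ∃ l ∈ UP M E (ω ∪ W) (fun g => g = fL), l ∈ ω ∧ (v = eu l ∨ v = ev l)) := by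
  classical
  set U := UP M E (ω ∪ W) (fun g => g = fL) with hU
  constructor
  · intro h
    rcases first_out (κ0 := ((ω \ U) ∪ W).erase e0) h with h1 | ⟨v, l, h1, h2, h3, h4, h5⟩
    · exact ⟨_, h1.mono inter_subset_right, Or.inl rfl⟩
    · refine ⟨v, h1.mono inter_subset_right, Or.inr ⟨l, ?_, ?_, h5⟩⟩
      · rw [mem_erase, mem_union] at h2
        rw [mem_erase, mem_union, mem_sdiff] at h3
        by_contra h6
        apply h3
        refine ⟨h2.1, ?_⟩
        rcases h2.2 with h7 | h7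
        · exact Or.inl ⟨h7, h6⟩
        · exact Or.inr h7
      · rw [mem_erase, mem_union] at h2
        rw [mem_erase, mem_union, mem_sdiff] at h3
        rcases h2.2 with h7 | h7
        · exact h7
        · exact absurd ⟨h2.1, Or.inr h7⟩ h3
  · rintro ⟨v, h1, h2⟩
    have h3 : Co ((ω ∪ W).erase e0) y v := by
      refine h1.mono (erase_subset_erase _ ?_)
      exact union_subset_union sdiff_subset subset_rfl
    rcases h2 with rfl | ⟨l, hl, hlω, hv⟩
    · exact h3
    · have hηM : ω ∪ W ⊆ H75.TwoArm.BB (M - 1) := union_subset (hω.trans hEM) hWM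
      have hodd : (l.1 + l.2) % 2 = 1 := (HOrderAux.mem_BB'.1 (hEM (hω hlω))).2.2
      rcases (mem_UP.1 hl).2 with hg | hg
      · obtain ⟨c', h4, h5⟩ := exists_corner hodd hv (Or.inl rfl)
        rw [← h5] at hg
        exact right_conn he (hWM h0) hηM (union_subset_union hω subset_rfl)
          (mem_union_right _ h0) hf hc hy hyc hatt h3 h4 hg
      · obtain ⟨c', h4, h5⟩ := exists_corner hodd hv (Or.inr rfl)
        rw [← h5] at hg
        exact right_conn he (hWM h0) hηM (union_subset_union hω subset_rfl)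
          (mem_union_right _ h0) hf hc hy hyc hatt h3 h4 hg

end Pool.Agent.H65.Dom
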