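import Mathlib
import Pool.Agent.H65.Dom.Extremal

set_option autoImplicit false
open Finset

/-! Extension up to a rough arc. If the ends `x, t` of the root edge `e0` are not connected, but there
is a lattice path `p` from the cluster of `x` to the cluster of `t`, then some face next to `p` is joined
to the left face of the root edge by a closed dual path which avoids every set `Φ` of faces joined to the
right face by dual paths not crossing `p`. -/

namespace Pool.Agent.H65.Dom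

open Pool.Agent.H75.Perc Pool.Agent.H75.TwoArm Pool.Agent.H75.Four

lemma co_coX {κ : Finset (ℤ × ℤ)} {X : ℤ × ℤ → Prop} {a b : ℤ × ℤ} (h : Co κ a b)
    (hX : ∀ g, Co κ a g → X g) : CoX κ X a b := by
  induction h with
  | refl => exact Relation.ReflTransGen.refl
  | @tail u v hau huv ih => exact Relation.ReflTransGen.tail ih ⟨huv, hX v (Relation.ReflTransGen.tail hau huv)⟩

lemma coX_mono {κ κ' : Finset (ℤ × ℤ)} (h : κ ⊆ κ') {X : ℤ × ℤ → Prop} {a b : ℤ × ℤ}
    (hab : CoX κ X a b) : CoX κ' X a b := by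
  induction hab with
  | refl => exact Relation.ReflTransGen.refl
  | tail _ huv ih => exact Relation.ReflTransGen.tail ih ⟨huv.1.mono h, huv.2⟩

/-- the labels of a lattice path -/
noncomputable def pl (p : ℕ → ℤ × ℤ) (n : ℕ) : Finset (ℤ × ℤ) :=
  (range n).image (fun j => p j + p (j + 1))

lemma mem_pl {p : ℕ → ℤ × ℤ} {n : ℕ} {l : ℤ × ℤ} : l ∈ pl p n ↔ ∃ j < n, p j + p (j + 1) = l := by
  unfold pl
  rw [mem_image]
  simp only [mem_range]

theorem kl {M : ℤ} {η : Finset (ℤ × ℤ)} {e0 fL fR : ℤ × ℤ}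
    (he : (e0.1 + e0.2) % 2 = 1)
    (hη : η ⊆ H75.TwoArm.BB (M - 1)) (h0 : e0 ∈ η) (hf : Fc e0 fL fR)
    (hsep : ¬ Co (η.erase e0) (eu e0) (ev e0)) (p : ℕ → ℤ × ℤ) (n : ℕ)
    (hp0 : Co (η.erase e0) (eu e0) (p 0)) (hpn : Co (η.erase e0) (p n) (ev e0))
    (hstep : ∀ j < n, IsUnit4 (p (j + 1) - p j)) (hne : e0 ∉ pl p n)
    (hPM : pl p n ⊆ H75.TwoArm.BB (M - 1)) (Φ : ℤ × ℤ → Prop)
    (hΦ : ∀ g, Φ g → Co (du (H75.TwoArm.BB M) (η ∪ pl p n)) g fR) :
    ∃ j < n, ∃ g0, (g0 = fi (zu (p j + p (j + 1))) ∨ g0 = fi (zv (p j + p (j + 1)))) ∧ ¬ Φ g0 ∧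
      CoX (du (LB (H75.TwoArm.BB M) (η.erase e0) (eu e0)) η) (fun g => ¬ Φ g) g0 fL := by
  classical
  set κ := η.erase e0 with hκ
  have hκM : κ ⊆ H75.TwoArm.BB (M - 1) := (erase_subset _ _).trans hη
  -- the last index in the cluster of `x`
  set I := (range (n + 1)).filter (fun j => Co κ (eu e0) (p j)) with hI
  have hI0 : 0 ∈ I := mem_filter.2 ⟨mem_range.2 (by omega), hp0⟩
  obtain ⟨i, hiI, hmax⟩ := I.exists_max_image id ⟨0, hI0⟩
  have hi := mem_filter.1 hiI
  have hin : i < n := by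
    have h1 := mem_range.1 hi.1
    rcases Nat.lt_succ_iff_lt_or_eq.1 h1 with h2 | h2
    · exact h2
    · exact absurd (hi.2.trans (by rw [h2]; exact hpn)) hsep
  have hC : Co κ (eu e0) (p i) := hi.2
  have hnC : ∀ j, i < j → j ≤ n → ¬ Co κ (eu e0) (p j) := by
    intro j h1 h2 h3
    have := hmax j (mem_filter.2 ⟨mem_range.2 (by omega), h3⟩)
    simp only [id] at this
    omega
  set e := p i + p (i + 1) with hedef
  have hee : (e.1 + e.2) % 2 = 1 := odd_of_unit (hstep i hin)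
  have hepl : e ∈ pl p n := mem_pl.2 ⟨i, hin, rfl⟩
  have hee0 : e ≠ e0 := fun h => hne (h ▸ hepl)
  have heκ : e ∉ κ := by
    intro h
    exact hnC (i + 1) (by omega) (by omega)
      (hC.trans (Relation.ReflTransGen.single ⟨hstep i hin, h⟩))
  have heη : e ∉ η := fun h => heκ (mem_erase.2 ⟨hee0, h⟩)
  have heer : κ.erase e = κ := erase_eq_of_notMem heκ
  -- the corners
  obtain ⟨z0, z1, hz, hz0, hz1⟩ : ∃ z0 z1, ((z0 = zu e ∧ z1 = zv e) ∨ (z0 = zv e ∧ z1 = zu e)) ∧
      vx z0 = p i ∧ vx z1 = p (i + 1) := by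
    have hu := H75.Four.PivAux.vx_zu hee
    have hv := H75.Four.PivAux.vx_zv hee
    rcases ends_of hee (hstep i hin) rfl with ⟨h1, h2⟩ | ⟨h1, h2⟩
    · exact ⟨_, _, Or.inl ⟨rfl, rfl⟩, hu.trans h1.symm, hv.trans h2.symm⟩
    · exact ⟨_, _, Or.inr ⟨rfl, rfl⟩, hv.trans h1.symm, hu.trans h2.symm⟩
  have hsep' : ¬ Co (κ.erase e) (vx z0) (vx z1) := by
    rw [heer, hz0, hz1]
    exact fun h => hnC (i + 1) (by omega) (by omega) (hC.trans h)
  have hΓ := dual_of_sepc hee (hPM hepl) hκM hz hsep'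
  rw [heer, hz0] at hΓ
  set Q := LB (H75.TwoArm.BB M) κ (eu e0) with hQ
  have hQQ : LB (H75.TwoArm.BB M) κ (p i) = Q := by
    ext l
    rw [hQ, mem_LB, mem_LB]
    have h1 : ∀ v, Co κ (p i) v ↔ Co κ (eu e0) v := fun v => ⟨hC.trans, hC.symm.trans⟩
    rw [h1, h1]
  rw [hQQ] at hΓ
  set K1 := du Q (insert e η) with hK1
  set η' := η ∪ (pl p n).filter (fun l => ∃ j, i < j ∧ j < n ∧ p j + p (j + 1) = l) with hη'
  have hKsub : K1 ⊆ du (H75.TwoArm.BB M) (insert e η') := by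
    intro l hl
    rw [hK1, mem_du_iff', hQ, mem_LB, mem_insert] at hl
    rw [mem_du_iff', mem_insert]
    refine ⟨hl.1.1, fun h => ?_⟩
    rcases h with h | h
    · exact hl.2 (Or.inl h)
    · rcases mem_union.1 h with h | h
      · exact hl.2 (Or.inr h)
      · obtain ⟨-, j, h1, h2, h3⟩ := mem_filter.1 h
        have hodd : ((l - (1, 1)).1 + (l - (1, 1)).2) % 2 = 1 :=
          (HOrderAux.mem_BB'.1 hl.1.1).2.2
        have h5 := hnC j h1 (by omega)
        have h6 := hnC (j + 1) (by omega) (by omega)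
        rcases ends_of hodd (hstep j h2) h3 with ⟨h4, h4'⟩ | ⟨h4, h4'⟩
        · rw [← h4, ← h4'] at hl
          rcases hl.1.2 with h7 | h7
          · exact h5 h7
          · exact h6 h7
        · rw [← h4, ← h4'] at hl
          rcases hl.1.2 with h7 | h7
          · exact h6 h7
          · exact h5 h7
  have hclose : Co (η'.erase e) (p i) (p (i + 1)) := by
    have hκη : κ ⊆ η'.erase e := by
      intro l hl
      refine mem_erase.2 ⟨fun h => heκ (h ▸ hl), mem_union_left _ (mem_erase.1 hl).2⟩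
    have h1 : Co (η'.erase e) (p i) (eu e0) := hC.symm.mono hκη
    have h2 : Co (η'.erase e) (eu e0) (ev e0) := by
      have h3 := H75.Four.PivAux.eu_ev he
      refine Relation.ReflTransGen.single ⟨h3.1, ?_⟩
      rw [h3.2]
      exact mem_erase.2 ⟨hee0.symm, mem_union_left _ h0⟩
    have h3 : Co (η'.erase e) (ev e0) (p n) := (hpn.mono hκη).symm
    have h4 : ∀ m, i + 1 + m ≤ n → Co (η'.erase e) (p (i + 1)) (p (i + 1 + m)) := by
      intro m
      induction m with
      | zero => intro _; exact Co.refl _ _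
      | succ m ih =>
        intro hm
        have h5 := ih (by omega)
        have hjn : i + 1 + m < n := by omega
        refine Relation.ReflTransGen.tail h5 ⟨hstep (i + 1 + m) hjn, ?_⟩
        refine mem_erase.2 ⟨fun h => ?_, mem_union_right _ (mem_filter.2
          ⟨mem_pl.2 ⟨i + 1 + m, hjn, rfl⟩, i + 1 + m, by omega, hjn, rfl⟩)⟩
        have h6 : p (i + 1 + m) + p (i + 1 + (m + 1)) = p i + p (i + 1) := h
        rcases H47.NC.ends_unique (hstep i hin) (hstep (i + 1 + m) hjn) h6 with ⟨h7, -⟩ | ⟨-, h7⟩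
        · exact hnC (i + 1 + m) (by omega) (by omega) (by rw [h7]; exact hC)
        · exact hnC (i + 1 + m + 1) (by omega) (by omega) (by rw [h7]; exact hC)
    have h5 := h4 (n - (i + 1)) (by omega)
    rw [show i + 1 + (n - (i + 1)) = n by omega] at h5
    exact ((h1.trans h2).trans h3).trans h5.symm
  have hno : ¬ Co (du (H75.TwoArm.BB M) (insert e η')) (fi z0) (fi z1) := by
    intro h
    have h1 : Co (du (H75.TwoArm.BB M) (insert e η')) (fi (zu e)) (fi (zv e)) := by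
      rcases hz with ⟨rfl, rfl⟩ | ⟨rfl, rfl⟩
      · exact h
      · exact h.symm
    have h2 := Pool.Agent.H81.NC.sep_of_dual hee h1
    apply h2
    rcases hz with ⟨rfl, rfl⟩ | ⟨rfl, rfl⟩
    · rw [hz0, hz1]; exact hclose
    · rw [hz0, hz1]; exact hclose.symm
  -- cut the dual path at the root edge
  have hsplit : Co (insert (fi (zu e0) + fi (zv e0)) K1) (fi z0) (fi z1) := by
    refine hΓ.mono ?_
    intro l hl
    rw [mem_du_iff', mem_insert] at hl
    rw [mem_insert, (faces_zu he).2, hK1, mem_du_iff', mem_insert]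
    by_cases h : l - (1, 1) = e0
    · left; rw [← h, sub_add_cancel]
    · right
      refine ⟨hl.1, fun h1 => hl.2 ?_⟩
      rcases h1 with h1 | h1
      · exact Or.inl h1
      · exact Or.inr (mem_erase.2 ⟨h, h1⟩)
  have hsp := H47.NC.split_edge (faces_zu he).1 hsplit
  obtain ⟨g0, g1, hg, hg0, hg1⟩ : ∃ g0 g1, ((g0 = fi z0 ∧ g1 = fi z1) ∨ (g0 = fi z1 ∧ g1 = fi z0)) ∧
      Co K1 g0 fL ∧ Co K1 g1 fR := by
    have er : ∀ {a b}, Co (K1.erase (fi (zu e0) + fi (zv e0))) a b → Co K1 a b :=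
      fun h => h.mono (erase_subset _ _)
    rcases hsp with h | ⟨h1, h2⟩ | ⟨h1, h2⟩
    · exact absurd ((er h).mono hKsub) hno
    · rcases hf with ⟨rfl, rfl⟩ | ⟨rfl, rfl⟩
      · exact ⟨_, _, Or.inl ⟨rfl, rfl⟩, er h1, (er h2).symm⟩
      · exact ⟨_, _, Or.inr ⟨rfl, rfl⟩, (er h2).symm, er h1⟩
    · rcases hf with ⟨rfl, rfl⟩ | ⟨rfl, rfl⟩
      · exact ⟨_, _, Or.inr ⟨rfl, rfl⟩, (er h2).symm, er h1⟩
      · exact ⟨_, _, Or.inl ⟨rfl, rfl⟩, er h1, (er h2).symm⟩
  have hinsub : insert e η' ⊆ η ∪ pl p n := by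
    intro l hl
    rcases mem_insert.1 hl with rfl | hl
    · exact mem_union_right _ hepl
    · rcases mem_union.1 hl with hl | hl
      · exact mem_union_left _ hl
      · exact mem_union_right _ (mem_filter.1 hl).1
  have havoid : ∀ g, Co K1 g0 g → ¬ Φ g := by
    intro g hg0g hΦg
    have h1 := (hΦ g hΦg).mono (du_anti hinsub)
    have h2 : Co (du (H75.TwoArm.BB M) (insert e η')) g0 g1 :=
      ((hg0g.mono hKsub).trans h1).trans (hg1.mono hKsub).symm
    rcases hg with ⟨rfl, rfl⟩ | ⟨rfl, rfl⟩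
    · exact hno h2
    · exact hno h2.symm
  refine ⟨i, hin, g0, ?_, havoid g0 (Co.refl _ _), ?_⟩
  · rcases hz with ⟨rfl, rfl⟩ | ⟨rfl, rfl⟩ <;> rcases hg with ⟨rfl, -⟩ | ⟨rfl, -⟩
    · exact Or.inl rfl
    · exact Or.inr rfl
    · exact Or.inr rfl
    · exact Or.inl rfl
  · refine coX_mono ?_ (co_coX hg0 havoid)
    rw [hK1]
    exact du_anti (subset_insert _ _)

end Pool.Agent.H65.Dom
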