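import Mathlib
import Pool.Agent.H65.Dom.KL
import Pool.Agent.H69.NC.Decay

set_option autoImplicit false
open Finset

/-! Decay of arms formed by unexplored labels. -/

namespace Pool.Agent.H65.Dom

open Pool.Agent.H75.Perc Pool.Agent.H75.TwoArm Pool.Agent.H75.Four Pool.Agent.H99.NC

/-- an arm of the label set `κ` from the square of radius `ρ` to distance `R` around `x` -/
def Arm (x : ℤ × ℤ) (ρ R : ℤ) (κ : Finset (ℤ × ℤ)) : Prop :=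
  ∃ u v : ℤ × ℤ, |u.1 - x.1| ≤ ρ ∧ |u.2 - x.2| ≤ ρ ∧
    (R ≤ |v.1 - x.1| ∨ R ≤ |v.2 - x.2|) ∧ Co κ u v

lemma Arm.mono {x : ℤ × ℤ} {ρ R : ℤ} {κ κ' : Finset (ℤ × ℤ)} (h : κ ⊆ κ') (ha : Arm x ρ R κ) :
    Arm x ρ R κ' := by
  obtain ⟨u, v, h1, h2, h3, h4⟩ := ha
  exact ⟨u, v, h1, h2, h3, h4.mono h⟩

/-- decay of the arms of both colours in every domain, up to scale `N` -/
def Dec (q : ℤ × ℤ → ℝ) (δ : ℝ) (N : ℤ) : Prop :=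
  Pb q ∧ 0 < δ ∧ δ < 1 ∧ ∀ (E : Finset (ℤ × ℤ)), (∀ e ∈ E, (e.1 + e.2) % 2 = 1) →
    ∀ (x : ℤ × ℤ) (ρ : ℤ), 1 ≤ ρ → ∀ k : ℕ, 4 ^ k * ρ ≤ N →
      PrP q E (fun ω => Arm x ρ (4 ^ k * ρ) ω) ≤ (1 - δ) ^ k ∧
      PrP q E (fun ω => Arm x ρ (4 ^ k * ρ) (du E ω)) ≤ (1 - δ) ^ k

theorem dec_of_Rsw {c : ℝ} (hc : 0 < c) : ∃ δ : ℝ, ∀ (q : ℤ × ℤ → ℝ) (N : ℤ),
    Pool.Agent.H69.NC.Rsw q c N → Dec q δ N := by
  obtain ⟨δ, h0, h1, h⟩ := Pool.Agent.H69.NC.arm_decay c hc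
  refine ⟨δ, fun q N hR => ⟨hR.1, h0, h1, fun E hE x ρ hρ k hN => ?_⟩⟩
  have := h q N hR E hE x ρ hρ k hN
  rw [Pool.Agent.H69.NC.PQ_eq, Pool.Agent.H69.NC.PQ_eq] at this
  exact this

theorem dec_half : ∃ δ : ℝ, ∀ N : ℤ, Dec (fun _ => 1 / 2) δ N := by
  obtain ⟨δ, h0, h1, h⟩ := open_arm_decay
  refine ⟨δ, fun N => ⟨fun _ => by norm_num, h0, h1, fun E hE x ρ hρ k _ => ⟨?_, ?_⟩⟩⟩
  · rw [PrP_half]
    exact h E hE x ρ hρ k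
  · have h2 : (fun _ : ℤ × ℤ => (1 : ℝ) / 2) = Pool.Agent.H69.NC.dq (fun _ => 1 / 2) := by
      funext e
      unfold Pool.Agent.H69.NC.dq
      norm_num
    have h3 := Pool.Agent.H69.NC.PQ_du (fun _ => (1 : ℝ) / 2) E (fun κ => Arm x ρ (4 ^ k * ρ) κ)
    rw [← h2] at h3
    rw [Pool.Agent.H69.NC.PQ_eq, Pool.Agent.H69.NC.PQ_eq, PrP_half (E.map sh1)] at h3
    rw [h3]
    refine h (E.map sh1) ?_ x ρ hρ k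
    intro e he
    obtain ⟨l, hl, rfl⟩ := mem_map.1 he
    have := hE l hl
    simp only [sh1, Function.Embedding.coeFn_mk]
    omega

lemma du_inter_self {E ω : Finset (ℤ × ℤ)} : du E (ω ∩ E) = du E ω := by
  ext l
  rw [mem_du_iff', mem_du_iff', mem_inter]
  tauto

/-- Resampling + decay: an arm formed by unexplored labels; `d = true` for dual arms. -/
theorem stop_decay {δ : ℝ} {q : ℤ × ℤ → ℝ} {N : ℤ} (hD : Dec q δ N)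
    {E : Finset (ℤ × ℤ)} (hE : ∀ e ∈ E, (e.1 + e.2) % 2 = 1)
    (U : Finset (ℤ × ℤ) → Finset (ℤ × ℤ))
    (hU : ∀ ω ω', ω ⊆ E → ω' ⊆ E → U (H75.Perc.mix (U ω) ω ω') = U ω)
    (A B : Finset (ℤ × ℤ) → Prop)
    (hB : ∀ ω ω', ω ⊆ E → ω' ⊆ E → B (H75.Perc.mix (U ω) ω ω') → B ω)
    {ρ : ℤ} (hρ : 1 ≤ ρ) {k : ℕ} (hN : 4 ^ k * ρ ≤ N)
    (hY : ∀ ω, ω ⊆ E → B ω → ∃ z : ℤ × ℤ, ∀ ω', ω' ⊆ E → A (H75.Perc.mix (U ω) ω ω') →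
      Arm z ρ (4 ^ k * ρ) (ω' \ U ω) ∨ Arm z ρ (4 ^ k * ρ) (du (E \ U ω) ω')) :
    PrP q E (fun ω => A ω ∧ B ω) ≤ PrP q E B * (2 * (1 - δ) ^ k) := by
  classical
  obtain ⟨hq, h0, h1, hdec⟩ := hD
  refine resampleP_le hq E U hU A B (fun ω ω' => A (H75.Perc.mix (U ω) ω ω')) _ hB ?_
    (fun ω ω' _ _ _ h => h)
  intro ω hω hBω
  obtain ⟨z, hz⟩ := hY ω hω hBω
  have hE' : ∀ e ∈ E \ U ω, (e.1 + e.2) % 2 = 1 := fun e he => hE e (mem_sdiff.1 he).1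
  have hd := hdec (E \ U ω) hE' z ρ hρ k hN
  rw [← PrP_restrict q (sdiff_subset : E \ U ω ⊆ E), ← PrP_restrict q (sdiff_subset : E \ U ω ⊆ E)]
    at hd
  calc PrP q E (fun ω' => A (H75.Perc.mix (U ω) ω ω'))
      ≤ PrP q E (fun ω' => Arm z ρ (4 ^ k * ρ) (ω' ∩ (E \ U ω)) ∨
          Arm z ρ (4 ^ k * ρ) (du (E \ U ω) (ω' ∩ (E \ U ω)))) := by
        refine PrP_mono hq fun ω' hω' h => ?_
        rw [du_inter_self]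
        refine (hz ω' hω' h).imp (fun h => h.mono ?_) id
        intro l hl
        have := mem_sdiff.1 hl
        exact mem_inter.2 ⟨this.1, mem_sdiff.2 ⟨hω' this.1, this.2⟩⟩
    _ ≤ _ := (PrP_or_le hq E _ _).trans (by linarith [hd.1, hd.2])

/-- one colour: dual arms -/
theorem stop_decay_dual {δ : ℝ} {q : ℤ × ℤ → ℝ} {N : ℤ} (hD : Dec q δ N)
    {E : Finset (ℤ × ℤ)} (hE : ∀ e ∈ E, (e.1 + e.2) % 2 = 1)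
    (U : Finset (ℤ × ℤ) → Finset (ℤ × ℤ))
    (hU : ∀ ω ω', ω ⊆ E → ω' ⊆ E → U (H75.Perc.mix (U ω) ω ω') = U ω)
    (A B : Finset (ℤ × ℤ) → Prop)
    (hB : ∀ ω ω', ω ⊆ E → ω' ⊆ E → B (H75.Perc.mix (U ω) ω ω') → B ω)
    {ρ : ℤ} (hρ : 1 ≤ ρ) {k : ℕ} (hN : 4 ^ k * ρ ≤ N)
    (hY : ∀ ω, ω ⊆ E → B ω → ∃ z : ℤ × ℤ, ∀ ω', ω' ⊆ E → A (H75.Perc.mix (U ω) ω ω') →
      Arm z ρ (4 ^ k * ρ) (du (E \ U ω) ω')) :
    PrP q E (fun ω => A ω ∧ B ω) ≤ PrP q E B * (1 - δ) ^ k := by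
  classical
  obtain ⟨hq, h0, h1, hdec⟩ := hD
  refine resampleP_le hq E U hU A B (fun ω ω' => A (H75.Perc.mix (U ω) ω ω')) _ hB ?_
    (fun ω ω' _ _ _ h => h)
  intro ω hω hBω
  obtain ⟨z, hz⟩ := hY ω hω hBω
  have hE' : ∀ e ∈ E \ U ω, (e.1 + e.2) % 2 = 1 := fun e he => hE e (mem_sdiff.1 he).1
  have hd := hdec (E \ U ω) hE' z ρ hρ k hN
  rw [← PrP_restrict q (sdiff_subset : E \ U ω ⊆ E), ← PrP_restrict q (sdiff_subset : E \ U ω ⊆ E)]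
    at hd
  refine (PrP_mono hq fun ω' hω' h => ?_).trans hd.2
  rw [du_inter_self]
  exact hz ω' hω' h

/-- one colour: open arms -/
theorem stop_decay_open {δ : ℝ} {q : ℤ × ℤ → ℝ} {N : ℤ} (hD : Dec q δ N)
    {E : Finset (ℤ × ℤ)} (hE : ∀ e ∈ E, (e.1 + e.2) % 2 = 1)
    (U : Finset (ℤ × ℤ) → Finset (ℤ × ℤ))
    (hU : ∀ ω ω', ω ⊆ E → ω' ⊆ E → U (H75.Perc.mix (U ω) ω ω') = U ω)
    (A B : Finset (ℤ × ℤ) → Prop)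
    (hB : ∀ ω ω', ω ⊆ E → ω' ⊆ E → B (H75.Perc.mix (U ω) ω ω') → B ω)
    {ρ : ℤ} (hρ : 1 ≤ ρ) {k : ℕ} (hN : 4 ^ k * ρ ≤ N)
    (hY : ∀ ω, ω ⊆ E → B ω → ∃ z : ℤ × ℤ, ∀ ω', ω' ⊆ E → A (H75.Perc.mix (U ω) ω ω') →
      Arm z ρ (4 ^ k * ρ) (ω' \ U ω)) :
    PrP q E (fun ω => A ω ∧ B ω) ≤ PrP q E B * (1 - δ) ^ k := by
  classical
  obtain ⟨hq, h0, h1, hdec⟩ := hD
  refine resampleP_le hq E U hU A B (fun ω ω' => A (H75.Perc.mix (U ω) ω ω')) _ hB ?_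
    (fun ω ω' _ _ _ h => h)
  intro ω hω hBω
  obtain ⟨z, hz⟩ := hY ω hω hBω
  have hE' : ∀ e ∈ E \ U ω, (e.1 + e.2) % 2 = 1 := fun e he => hE e (mem_sdiff.1 he).1
  have hd := hdec (E \ U ω) hE' z ρ hρ k hN
  rw [← PrP_restrict q (sdiff_subset : E \ U ω ⊆ E), ← PrP_restrict q (sdiff_subset : E \ U ω ⊆ E)]
    at hd
  refine (PrP_mono hq fun ω' hω' h => (hz ω' hω' h).mono ?_).trans hd.1
  intro l hl
  have := mem_sdiff.1 hl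
  exact mem_inter.2 ⟨this.1, mem_sdiff.2 ⟨hω' this.1, this.2⟩⟩

end Pool.Agent.H65.Dom
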