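import Mathlib
import Pool.Agent.H65.Dom.Dec

set_option autoImplicit false
open Finset

/-! Probability of not being joined to a (rough) arc, given an explored region which comes close to
it. -/

namespace Pool.Agent.H65.Dom

open Pool.Agent.H75.Perc Pool.Agent.H75.TwoArm Pool.Agent.H75.Four Pool.Agent.H99.NC

/-- open square of radius `R` around `z` -/
def sq (z : ℤ × ℤ) (R : ℤ) (g : ℤ × ℤ) : Prop := |g.1 - z.1| < R ∧ |g.2 - z.2| < R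

lemma not_sq {z g : ℤ × ℤ} {R : ℤ} : ¬ sq z R g ↔ (R ≤ |g.1 - z.1| ∨ R ≤ |g.2 - z.2|) := by
  unfold sq
  rw [not_and_or, not_lt, not_lt]

/-- a path which stays off `Φ`, followed until it leaves a ball -/
lemma arm_of_coX {κ κ2 : Finset (ℤ × ℤ)} {Φ ball : ℤ × ℤ → Prop} {a b : ℤ × ℤ}
    (h : CoX κ (fun g => ¬ Φ g) a b) (ha : ¬ Φ a)
    (hstep : ∀ f g, ball f → ¬ Φ f → ¬ Φ g → Ad κ f g → Ad κ2 f g) (hb0 : ball a)
    (hb1 : ¬ ball b) : ∃ v, ¬ ball v ∧ Co κ2 a v := by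
  have key : ∀ b, CoX κ (fun g => ¬ Φ g) a b →
      (ball b ∧ ¬ Φ b ∧ Co κ2 a b) ∨ ∃ v, ¬ ball v ∧ Co κ2 a v := by
    intro b hb
    induction hb with
    | refl => exact Or.inl ⟨hb0, ha, Co.refl _ _⟩
    | @tail u v _ huv ih =>
      rcases ih with ⟨h1, h2, h3⟩ | h1
      · have h4 : Co κ2 a v := Relation.ReflTransGen.tail h3 (hstep u v h1 h2 huv.2 huv.1)
        by_cases h5 : ball v
        · exact Or.inl ⟨h5, huv.2, h4⟩
        · exact Or.inr ⟨v, h5, h4⟩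
      · exact Or.inr h1
  rcases key b h with ⟨h1, -⟩ | h1
  · exact absurd h1 hb1
  · exact h1

lemma faces_near {u v g : ℤ × ℤ} (h : IsUnit4 (v - u))
    (hg : g = fi (zu (u + v)) ∨ g = fi (zv (u + v))) :
    |g.1 - u.1| ≤ 1 ∧ |g.2 - u.2| ≤ 1 := by
  have h1 := unit_cases h
  rw [abs_le, abs_le]
  rcases hg with rfl | rfl
  · unfold fi zu
    simp only [Prod.fst_add, Prod.snd_add]
    split_ifs <;> simp only [Prod.fst_add, Prod.snd_add] <;> omega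
  · unfold fi zv
    simp only [Prod.fst_add, Prod.snd_add]
    split_ifs <;> simp only [Prod.fst_add, Prod.snd_add] <;> omega

/-- a lattice path of length `n` in the closed square of radius `r` around `z` -/
def LP (z : ℤ × ℤ) (r : ℤ) (p : ℕ → ℤ × ℤ) (n : ℕ) : Prop :=
  (∀ j < n, IsUnit4 (p (j + 1) - p j)) ∧ ∀ j ≤ n, |(p j).1 - z.1| ≤ r ∧ |(p j).2 - z.2| ≤ r

/-- **Extension up to a rough arc**, general form. `U` = explored labels, `Φ` = explored faces joined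
to the right face `fR` of the root edge. -/
theorem approach_gen {δ : ℝ} {q : ℤ × ℤ → ℝ} {N : ℤ} (hD : Dec q δ N) {M : ℤ}
    {E W : Finset (ℤ × ℤ)} {e0 fL fR : ℤ × ℤ} (he : (e0.1 + e0.2) % 2 = 1)
    (hEM : E ⊆ H75.TwoArm.BB (M - 1)) (hWM : W ⊆ H75.TwoArm.BB (M - 1)) (h0 : e0 ∈ W)
    (hf : Fc e0 fL fR) (U : Finset (ℤ × ℤ) → Finset (ℤ × ℤ))
    (hU : ∀ ω ω', ω ⊆ E → ω' ⊆ E → U (H75.Perc.mix (U ω) ω ω') = U ω)
    (Φ : Finset (ℤ × ℤ) → ℤ × ℤ → Prop) (G : Finset (ℤ × ℤ) → Prop)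
    (hGs : ∀ ω ω', ω ⊆ E → ω' ⊆ E → G (H75.Perc.mix (U ω) ω ω') → G ω)
    {ρ : ℤ} (hρ : 1 ≤ ρ) {k : ℕ} (hk : 1 ≤ k) (hN : 4 ^ k * ρ ≤ N)
    (hG : ∀ ω, ω ⊆ E → G ω → ∃ (z : ℤ × ℤ) (p : ℕ → ℤ × ℤ) (n : ℕ), LP z (ρ - 1) p n ∧
      e0 ∉ pl p n ∧ pl p n ⊆ H75.TwoArm.BB (M - 1) ∧
      Co (((ω ∩ U ω) ∪ W).erase e0) (eu e0) (p 0) ∧
      Co (((ω ∩ U ω) ∪ W).erase e0) (p n) (ev e0) ∧
      (∀ g, Φ ω g → Co (du (H75.TwoArm.BB M) (((ω ∩ U ω) ∪ (E \ U ω) ∪ W) ∪ pl p n)) g fR) ∧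
      ¬ sq z (4 ^ k * ρ) fL ∧
      ∀ l ∈ H75.TwoArm.BB M, l ∉ W → (l ∈ E → l ∈ U ω ∧ l ∉ ω) →
        (sq z (4 ^ k * ρ) (fi (zu l)) ∨ sq z (4 ^ k * ρ) (fi (zv l))) →
        Φ ω (fi (zu l)) ∨ Φ ω (fi (zv l))) :
    PrP q E (fun ω => ¬ Co ((ω ∪ W).erase e0) (eu e0) (ev e0) ∧ G ω) ≤
      PrP q E G * (1 - δ) ^ k := by
  classical
  have hEodd : ∀ e ∈ E, (e.1 + e.2) % 2 = 1 := fun e he => (HOrderAux.mem_BB'.1 (hEM he)).2.2
  refine stop_decay_dual hD hEodd U hU _ G hGs hρ hN ?_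
  intro ω hω hGω
  obtain ⟨z, p, n, ⟨hstep, hball⟩, hne, hPM, hp0, hpn, hΦ, hfL, hfree⟩ := hG ω hω hGω
  refine ⟨z, fun ω' hω' hA => ?_⟩
  set ζ := H75.Perc.mix (U ω) ω ω' with hζ
  have hζE : ζ ⊆ E := mix_sub hω hω'
  have hsub : ((ω ∩ U ω) ∪ W) ⊆ ζ ∪ W := by
    refine union_subset_union (fun l hl => ?_) subset_rfl
    rw [hζ, H75.Perc.mem_mix]
    exact Or.inl (mem_inter.1 hl)
  have hsub2 : (ζ ∪ W) ∪ pl p n ⊆ ((ω ∩ U ω) ∪ (E \ U ω) ∪ W) ∪ pl p n := by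
    refine union_subset_union (union_subset_union (fun l hl => ?_) subset_rfl) subset_rfl
    rw [hζ, H75.Perc.mem_mix] at hl
    rcases hl with hl | hl
    · exact mem_union_left _ (mem_inter.2 hl)
    · exact mem_union_right _ (mem_sdiff.2 ⟨hω' hl.1, hl.2⟩)
  obtain ⟨j, hj, g0, hg0, hg0Φ, hpath⟩ := kl (M := M) (η := ζ ∪ W) he
    (union_subset (hζE.trans hEM) hWM) (mem_union_right _ h0) hf hA p n
    (hp0.mono (erase_subset_erase _ hsub)) (hpn.mono (erase_subset_erase _ hsub)) hstep hne hPM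
    (Φ ω) (fun g hg => (hΦ g hg).mono (du_anti hsub2))
  have hfn := faces_near (hstep j hj) hg0
  have hbj := hball j hj.le
  have h4 : (4 : ℤ) ≤ 4 ^ k := by
    calc (4 : ℤ) = 4 ^ 1 := by norm_num
      _ ≤ 4 ^ k := pow_le_pow_right₀ (by norm_num) hk
  have hρ4 : 4 * ρ ≤ 4 ^ k * ρ := by nlinarith
  have hgz : |g0.1 - z.1| ≤ ρ ∧ |g0.2 - z.2| ≤ ρ := by
    simp only [abs_le] at hfn hbj ⊢
    omega
  have hb0 : sq z (4 ^ k * ρ) g0 := ⟨by omega, by omega⟩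
  obtain ⟨v, hv1, hv2⟩ := arm_of_coX (κ2 := du (E \ U ω) ω') (ball := sq z (4 ^ k * ρ)) hpath hg0Φ
    (by
      intro f g hfb hfΦ hgΦ hAd
      obtain ⟨l, hlB, hlη, hodd, hfg, hfc⟩ := ad_du hAd
      have hlB' : l ∈ H75.TwoArm.BB M := (mem_LB.1 hlB).1
      have hlW : l ∉ W := fun h => hlη (mem_union_right _ h)
      have hno : ¬ (Φ ω (fi (zu l)) ∨ Φ ω (fi (zv l))) := by
        rcases hfc with ⟨rfl, rfl⟩ | ⟨rfl, rfl⟩
        · rintro (h | h)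
          · exact hfΦ h
          · exact hgΦ h
        · rintro (h | h)
          · exact hgΦ h
          · exact hfΦ h
      have hb : sq z (4 ^ k * ρ) (fi (zu l)) ∨ sq z (4 ^ k * ρ) (fi (zv l)) := by
        rcases hfc with ⟨rfl, rfl⟩ | ⟨rfl, rfl⟩
        · exact Or.inl hfb
        · exact Or.inr hfb
      have hlζ : l ∉ ζ := fun h => hlη (mem_union_left _ h)
      have hlE : l ∈ E ∧ l ∉ U ω := by
        constructor
        · by_contra h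
          exact hno (hfree l hlB' hlW (fun h1 => absurd h1 h) hb)
        · intro h
          refine hno (hfree l hlB' hlW (fun _ => ⟨h, fun h1 => hlζ ?_⟩) hb)
          rw [hζ, H75.Perc.mem_mix]
          exact Or.inl ⟨h1, h⟩
      refine ⟨hAd.1, ?_⟩
      rw [hfg]
      refine H75.TwoArm.StrandAux.mem_du (mem_sdiff.2 hlE) (fun h => hlζ ?_)
      rw [hζ, H75.Perc.mem_mix]
      exact Or.inr ⟨h, hlE.2⟩) hb0 hfL
  exact ⟨g0, v, hgz.1, hgz.2, not_sq.1 hv1, hv2⟩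

/-- **Extension up to a rough arc**, exploration of a sub-environment `(E', W')` from the right. `F0` =
labels which are frozen (in addition to the explored ones). -/
theorem approach {δ : ℝ} {q : ℤ × ℤ → ℝ} {N : ℤ} (hD : Dec q δ N) {M : ℤ}
    {E W : Finset (ℤ × ℤ)} {e0 fL fR : ℤ × ℤ} (he : (e0.1 + e0.2) % 2 = 1)
    (hEM : E ⊆ H75.TwoArm.BB (M - 1)) (hWM : W ⊆ H75.TwoArm.BB (M - 1)) (h0 : e0 ∈ W)
    (hf : Fc e0 fL fR) {E' W' F0 : Finset (ℤ × ℤ)} (hW' : W ∪ (E \ E') ⊆ W')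
    (G : Finset (ℤ × ℤ) → Prop)
    (hGs : ∀ ω ω', ω ⊆ E → ω' ⊆ E →
      G (H75.Perc.mix (UP M E' ((ω ∩ E') ∪ W') (fun g => g = fR) ∪ F0) ω ω') → G ω)
    {ρ : ℤ} (hρ : 1 ≤ ρ) {k : ℕ} (hk : 1 ≤ k) (hN : 4 ^ k * ρ ≤ N)
    (hG : ∀ ω, ω ⊆ E → G ω → ∃ (z : ℤ × ℤ) (p : ℕ → ℤ × ℤ) (n : ℕ), LP z (ρ - 1) p n ∧
      e0 ∉ pl p n ∧ pl p n ⊆ H75.TwoArm.BB (M - 1) ∧ pl p n ⊆ W' ∧
      Co (((ω ∩ (UP M E' ((ω ∩ E') ∪ W') (fun g => g = fR) ∪ F0)) ∪ W).erase e0) (eu e0) (p 0) ∧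
      Co (((ω ∩ (UP M E' ((ω ∩ E') ∪ W') (fun g => g = fR) ∪ F0)) ∪ W).erase e0) (p n) (ev e0) ∧
      ¬ sq z (4 ^ k * ρ) fL ∧
      ∀ l ∈ H75.TwoArm.BB M, l ∉ W → (l ∉ E ∨ l ∈ F0) →
        (sq z (4 ^ k * ρ) (fi (zu l)) ∨ sq z (4 ^ k * ρ) (fi (zv l))) →
        Ph M ((ω ∩ E') ∪ W') (fun g => g = fR) (fi (zu l)) ∨
          Ph M ((ω ∩ E') ∪ W') (fun g => g = fR) (fi (zv l))) :
    PrP q E (fun ω => ¬ Co ((ω ∪ W).erase e0) (eu e0) (ev e0) ∧ G ω) ≤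
      PrP q E G * (1 - δ) ^ k := by
  classical
  have hst : ∀ ω ω', ω ⊆ E → ω' ⊆ E → ∀ l ∈ UP M E' ((ω ∩ E') ∪ W') (fun g => g = fR),
      (l ∈ ω ∩ E' ↔ l ∈ H75.Perc.mix (UP M E' ((ω ∩ E') ∪ W') (fun g => g = fR) ∪ F0) ω ω' ∩ E') := by
    intro ω ω' _ _ l hl
    rw [mem_inter, mem_inter, H75.Perc.mem_mix, mem_union]
    tauto
  refine approach_gen hD he hEM hWM h0 hf
    (fun ω => UP M E' ((ω ∩ E') ∪ W') (fun g => g = fR) ∪ F0) ?_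
    (fun ω => Ph M ((ω ∩ E') ∪ W') (fun g => g = fR)) G hGs hρ hk hN ?_
  · intro ω ω' hω hω'
    rw [UP_env inter_subset_right inter_subset_right (hst ω ω' hω hω')]
  · intro ω hω hGω
    obtain ⟨z, p, n, h1, h2, h3, h4, h5, h6, h7, h8⟩ := hG ω hω hGω
    refine ⟨z, p, n, h1, h2, h3, h5, h6, ?_, h7, ?_⟩
    · rintro g ⟨s, rfl, hs⟩
      -- the configuration inside `E'`
      have hloc : Ph M ((ω ∩ UP M E' ((ω ∩ E') ∪ W') (fun g => g = s)) ∪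
          (E' \ UP M E' ((ω ∩ E') ∪ W') (fun g => g = s)) ∪ W') (fun g => g = s) g := by
        refine (Ph_env (E := E') (ω := ω ∩ E') inter_subset_right ?_ ?_ g).2 ⟨s, rfl, hs⟩
        · intro l hl
          rcases mem_union.1 hl with hl | hl
          · exact (mem_UP.1 (mem_inter.1 hl).2).1
          · exact (mem_sdiff.1 hl).1
        · intro l hl
          have := (mem_UP.1 hl).1
          rw [mem_inter, mem_union, mem_inter, mem_sdiff]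
          tauto
      obtain ⟨s', rfl, hs'⟩ := hloc
      refine hs'.symm.mono (du_anti ?_)
      intro l hl
      simp only [mem_union, mem_inter, mem_sdiff] at hl ⊢
      have hw : ∀ l, l ∈ W ∨ (l ∈ E ∧ l ∉ E') → l ∈ W' := by
        intro l hl
        exact hW' (mem_union.2 (hl.imp id mem_sdiff.2))
      rcases hl with ((⟨hl1, hl2 | hl2⟩ | ⟨hl1, hl2⟩) | hl) | hl
      · exact Or.inl (Or.inl ⟨hl1, hl2⟩)
      · by_cases hE1 : l ∈ E'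
        · by_cases hu : l ∈ UP M E' ((ω ∩ E') ∪ W') (fun g => g = s')
          · exact Or.inl (Or.inl ⟨hl1, hu⟩)
          · exact Or.inl (Or.inr ⟨hE1, hu⟩)
        · exact Or.inr (hw l (Or.inr ⟨hω hl1, hE1⟩))
      · by_cases hE1 : l ∈ E'
        · exact Or.inl (Or.inr ⟨hE1, fun h => hl2 (Or.inl h)⟩)
        · exact Or.inr (hw l (Or.inr ⟨hl1, hE1⟩))
      · exact Or.inr (hw l (Or.inl hl))
      · exact Or.inr (h4 hl)
    · intro l hlM hlW hlE hb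
      by_cases hl : l ∈ E
      · obtain ⟨h9, -⟩ := hlE hl
        rcases mem_union.1 h9 with h9 | h9
        · exact (mem_UP.1 h9).2
        · exact h8 l hlM hlW (Or.inr h9) hb
      · exact h8 l hlM hlW (Or.inl hl) hb

/-- the crossing event of the explored sub-environment is realised by explored open labels -/
theorem expl_conn {M : ℤ} {E W ω : Finset (ℤ × ℤ)} {e0 fL fR : ℤ × ℤ}
    (he : (e0.1 + e0.2) % 2 = 1) (hEM : E ⊆ H75.TwoArm.BB (M - 1))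
    (hWM : W ⊆ H75.TwoArm.BB (M - 1)) (hω : ω ⊆ E) (h0 : e0 ∈ W) (hf : Fc e0 fL fR)
    (hc : Co ((ω ∪ W).erase e0) (eu e0) (ev e0)) :
    Co (((ω ∩ UP M E (ω ∪ W) (fun g => g = fR)) ∪ W).erase e0) (eu e0) (ev e0) := by
  have hs : ω ∩ UP M E (ω ∪ W) (fun g => g = fR) ⊆ E := inter_subset_left.trans hω
  rw [conn_iff he (hWM h0) (union_subset (hω.trans hEM) hWM) (mem_union_right _ h0) hf.symm] at hc
  rw [conn_iff he (hWM h0) (union_subset (hs.trans hEM) hWM) (mem_union_right _ h0) hf.symm]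
  rwa [Ph_env hω hs]
  intro l hl
  rw [mem_inter]
  tauto

end Pool.Agent.H65.Dom
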