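import Mathlib
import Pool.Agent.H65.Dom.KL

set_option autoImplicit false
open Finset

/-! The dual form of `kl`: extension of a dual path up to a free arc. If the faces `fL, fR` of the root
edge `e0` are not joined by closed dual paths, but there is a path `p` of faces from the dual cluster of
`fL` to the dual cluster of `fR`, then some vertex next to `p` is joined to an end of `e0` by an open
path which avoids every set `Φ` of vertices joined to the other end by open paths not crossing `p`. -/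

namespace Pool.Agent.H65.Dom

open Pool.Agent.H75.Perc Pool.Agent.H75.TwoArm Pool.Agent.H75.Four

/-- the labels crossed by a path of faces -/
noncomputable def dpl (p : ℕ → ℤ × ℤ) (n : ℕ) : Finset (ℤ × ℤ) :=
  (range n).image (fun j => p j + p (j + 1) - (1, 1))

lemma mem_dpl {p : ℕ → ℤ × ℤ} {n : ℕ} {l : ℤ × ℤ} :
    l ∈ dpl p n ↔ ∃ j < n, p j + p (j + 1) - (1, 1) = l := by
  unfold dpl
  rw [mem_image]
  simp only [mem_range]

lemma odd_of_unit' {u v : ℤ × ℤ} (h : IsUnit4 (v - u)) :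
    ((u + v - (1, 1)).1 + (u + v - (1, 1)).2) % 2 = 1 := by
  have := odd_of_unit h
  simp only [Prod.fst_sub, Prod.snd_sub]
  omega

/-- the open path between the ends of an edge whose faces are not joined, inside the labels next to the
dual cluster of one face -/
lemma conn_near {M : ℤ} {ω : Finset (ℤ × ℤ)} {e f g : ℤ × ℤ} (he : (e.1 + e.2) % 2 = 1)
    (heM : e ∈ H75.TwoArm.BB (M - 1)) (hω : ω ⊆ H75.TwoArm.BB (M - 1)) (h0 : e ∈ ω)
    (hf : Fc e f g) (h : ¬ Ph M ω (fun a => a = f) g) :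
    Co ((ω ∩ UP M (H75.TwoArm.BB M) ω (fun a => a = f)).erase e) (eu e) (ev e) := by
  classical
  have heM' : e ∈ H75.TwoArm.BB M := by
    rw [HOrderAux.mem_BB'] at heM ⊢; omega
  have hff : Ph M ω (fun a => a = f) f := ⟨f, rfl, Co.refl _ _⟩
  have h1 : e ∈ ω ∩ UP M (H75.TwoArm.BB M) ω (fun a => a = f) := by
    refine mem_inter.2 ⟨h0, mem_UP.2 ⟨heM', ?_⟩⟩
    rcases hf with ⟨h2, -⟩ | ⟨h2, -⟩
    · left; rw [← h2]; exact hff
    · right; rw [← h2]; exact hff
  rw [conn_iff he heM (inter_subset_left.trans hω) h1 hf]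
  rwa [Ph_congr]
  intro l hl h2
  rw [mem_inter, mem_UP]
  tauto

theorem kl_dual {M : ℤ} {η : Finset (ℤ × ℤ)} {e0 fL fR tL tR : ℤ × ℤ}
    (he : (e0.1 + e0.2) % 2 = 1) (heM : e0 ∈ H75.TwoArm.BB (M - 1))
    (hη : η ⊆ H75.TwoArm.BB (M - 1)) (h0 : e0 ∉ η) (hf : Fc e0 fL fR)
    (ht : (tL = eu e0 ∧ tR = ev e0) ∨ (tL = ev e0 ∧ tR = eu e0))
    (hsep : ¬ Co (du (H75.TwoArm.BB M) (insert e0 η)) fL fR) (p : ℕ → ℤ × ℤ) (n : ℕ)
    (hp0 : Co (du (H75.TwoArm.BB M) (insert e0 η)) fL (p 0))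
    (hpn : Co (du (H75.TwoArm.BB M) (insert e0 η)) (p n) fR)
    (hstep : ∀ j < n, IsUnit4 (p (j + 1) - p j)) (hne : e0 ∉ dpl p n)
    (hPM : dpl p n ⊆ H75.TwoArm.BB M) (Φ : ℤ × ℤ → Prop)
    (hΦ : ∀ v, Φ v → Co (η \ dpl p n) v tR) :
    ∃ j < n, ∃ v0, (v0 = eu (p j + p (j + 1) - (1, 1)) ∨ v0 = ev (p j + p (j + 1) - (1, 1))) ∧
      ¬ Φ v0 ∧ CoX (η ∩ UP M (H75.TwoArm.BB M) (insert e0 η) (fun a => a = fL))
        (fun v => ¬ Φ v) v0 tL := by
  classical
  have heM' : e0 ∈ H75.TwoArm.BB M := by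
    rw [HOrderAux.mem_BB'] at heM ⊢; omega
  set ω := insert e0 η with hω
  have hωM : ω ⊆ H75.TwoArm.BB (M - 1) := insert_subset heM hη
  set κ := du (H75.TwoArm.BB M) ω with hκ
  set I := (range (n + 1)).filter (fun j => Co κ fL (p j)) with hI
  have hI0 : 0 ∈ I := mem_filter.2 ⟨mem_range.2 (by omega), hp0⟩
  obtain ⟨i, hiI, hmax⟩ := I.exists_max_image id ⟨0, hI0⟩
  have hi := mem_filter.1 hiI
  have hin : i < n := by
    have h1 := mem_range.1 hi.1
    rcases Nat.lt_succ_iff_lt_or_eq.1 h1 with h2 | h2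
    · exact h2
    · exact absurd (hi.2.trans (by rw [h2]; exact hpn)) hsep
  have hC : Co κ fL (p i) := hi.2
  have hnC : ∀ j, i < j → j ≤ n → ¬ Co κ fL (p j) := by
    intro j h1 h2 h3
    have := hmax j (mem_filter.2 ⟨mem_range.2 (by omega), h3⟩)
    simp only [id] at this
    omega
  set e := p i + p (i + 1) - (1, 1) with hedef
  have hee : (e.1 + e.2) % 2 = 1 := odd_of_unit' (hstep i hin)
  have hepl : e ∈ dpl p n := mem_dpl.2 ⟨i, hin, rfl⟩
  have hee0 : e ≠ e0 := fun h => hne (h ▸ hepl)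
  have hfac : Fc e (p i) (p (i + 1)) :=
    faces_of hee (hstep i hin) (by rw [hedef, sub_add_cancel])
  have heω : e ∈ ω := by
    by_contra h
    refine hnC (i + 1) (by omega) (by omega) (hC.trans ?_)
    have h1 := co_faces (η := ω) hee (hPM hepl) h
    rcases hfac with ⟨h2, h3⟩ | ⟨h2, h3⟩
    · rw [h2, h3]; exact h1
    · rw [h2, h3]; exact h1.symm
  have heη : e ∈ η := (mem_insert.1 heω).resolve_left hee0
  have hPh : ∀ g, Ph M ω (fun a => a = p i) g ↔ Ph M ω (fun a => a = fL) g := by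
    intro g
    constructor
    · rintro ⟨s, rfl, h⟩
      exact ⟨fL, rfl, hC.trans h⟩
    · rintro ⟨s, rfl, h⟩
      exact ⟨p i, rfl, hC.symm.trans h⟩
  have hUP : UP M (H75.TwoArm.BB M) ω (fun a => a = p i) =
      UP M (H75.TwoArm.BB M) ω (fun a => a = fL) := by
    ext l
    rw [mem_UP, mem_UP, hPh, hPh]
  have hΓ := conn_near hee (hωM heω) hωM heω hfac (by
    rw [hPh]
    rintro ⟨s, rfl, h⟩
    exact hnC (i + 1) (by omega) (by omega) h)
  rw [hUP] at hΓ
  set UU := UP M (H75.TwoArm.BB M) ω (fun a => a = fL) with hUU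
  set K := ((ω ∩ UU).erase e).erase e0 with hK
  have hKη : K ⊆ η ∩ UU := by
    intro l hl
    rw [hK, mem_erase, mem_erase, mem_inter, hω, mem_insert] at hl
    rw [mem_inter]
    tauto
  set ζ := η \ (dpl p n).filter (fun l => ∃ j, i < j ∧ j < n ∧ p j + p (j + 1) - (1, 1) = l)
    with hζ
  have hPhL : ∀ g, Ph M ω (fun a => a = fL) g ↔ Co κ fL g := by
    intro g
    constructor
    · rintro ⟨s, rfl, h⟩; exact h
    · exact fun h => ⟨fL, rfl, h⟩
  have hKsub : K ⊆ ζ.erase e := by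
    intro l hl
    have h1 := mem_inter.1 (hKη hl)
    rw [hK, mem_erase, mem_erase] at hl
    refine mem_erase.2 ⟨hl.2.1, mem_sdiff.2 ⟨h1.1, fun h2 => ?_⟩⟩
    obtain ⟨-, j, h3, h4, h5⟩ := mem_filter.1 h2
    have hodd : (l.1 + l.2) % 2 = 1 := by rw [← h5]; exact odd_of_unit' (hstep j h4)
    have h6 := hnC j h3 (by omega)
    have h7 := hnC (j + 1) (by omega) (by omega)
    have h8 := (mem_UP.1 h1.2).2
    rw [hPhL, hPhL] at h8
    rcases faces_of hodd (hstep j h4) (by rw [← h5, sub_add_cancel]) with ⟨h9, h9'⟩ | ⟨h9, h9'⟩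
    · rw [← h9, ← h9'] at h8
      rcases h8 with h8 | h8
      · exact h6 h8
      · exact h7 h8
    · rw [← h9, ← h9'] at h8
      rcases h8 with h8 | h8
      · exact h7 h8
      · exact h6 h8
  have hclose : Co (du (H75.TwoArm.BB M) (insert e ζ)) (p i) (p (i + 1)) := by
    have hsub : insert e ζ ⊆ ω := by
      refine insert_subset heω (fun l hl => ?_)
      exact mem_insert_of_mem (mem_sdiff.1 hl).1
    have h1 : Co (du (H75.TwoArm.BB M) (insert e ζ)) (p i) fL := hC.symm.mono (du_anti hsub)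
    have h2 : Co (du (H75.TwoArm.BB M) (insert e ζ)) fL fR := by
      have h3 : e0 ∉ insert e ζ := by
        rw [mem_insert]
        rintro (h | h)
        · exact hee0 h.symm
        · exact h0 (mem_sdiff.1 h).1
      have h4 := co_faces he heM' h3
      rcases hf with ⟨rfl, rfl⟩ | ⟨rfl, rfl⟩
      · exact h4
      · exact h4.symm
    have h3 : Co (du (H75.TwoArm.BB M) (insert e ζ)) fR (p n) := hpn.symm.mono (du_anti hsub)
    have h4 : ∀ m, i + 1 + m ≤ n →
        Co (du (H75.TwoArm.BB M) (insert e ζ)) (p (i + 1)) (p (i + 1 + m)) := by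
      intro m
      induction m with
      | zero => intro _; exact Co.refl _ _
      | succ m ih =>
        intro hm
        have h5 := ih (by omega)
        have hjn : i + 1 + m < n := by omega
        refine Relation.ReflTransGen.tail h5 ⟨hstep (i + 1 + m) hjn, ?_⟩
        rw [mem_du_iff']
        have hmem : p (i + 1 + m) + p (i + 1 + (m + 1)) - (1, 1) ∈ dpl p n :=
          mem_dpl.2 ⟨i + 1 + m, hjn, rfl⟩
        refine ⟨hPM hmem, fun h => ?_⟩
        rcases mem_insert.1 h with h | h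
        · have h6 : p (i + 1 + m) + p (i + 1 + (m + 1)) = p i + p (i + 1) := by
            rw [hedef] at h
            exact sub_left_inj.1 h
          rcases H47.NC.ends_unique (hstep i hin) (hstep (i + 1 + m) hjn) h6 with ⟨h7, -⟩ | ⟨-, h7⟩
          · exact hnC (i + 1 + m) (by omega) (by omega) (by rw [h7]; exact hC)
          · exact hnC (i + 1 + m + 1) (by omega) (by omega) (by rw [h7]; exact hC)
        · exact (mem_sdiff.1 h).2 (mem_filter.2 ⟨hmem, i + 1 + m, by omega, hjn, rfl⟩)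
    have h5 := h4 (n - (i + 1)) (by omega)
    rw [show i + 1 + (n - (i + 1)) = n by omega] at h5
    exact ((h1.trans h2).trans h3).trans h5.symm
  have hno : ¬ Co (ζ.erase e) (eu e) (ev e) := by
    have h1 : Co (du (H75.TwoArm.BB M) (insert e ζ)) (fi (zu e)) (fi (zv e)) := by
      rcases hfac with ⟨h2, h3⟩ | ⟨h2, h3⟩
      · rw [← h2, ← h3]; exact hclose
      · rw [← h2, ← h3]; exact hclose.symm
    have := Pool.Agent.H81.NC.sep_of_dual hee h1
    rwa [H75.Four.PivAux.vx_zu hee, H75.Four.PivAux.vx_zv hee] at this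
  have hends := H75.Four.PivAux.eu_ev he
  have hsplit : Co (insert (eu e0 + ev e0) K) (eu e) (ev e) := by
    refine hΓ.mono ?_
    rw [hends.2]
    intro l hl
    rw [mem_insert, hK]
    by_cases h : l = e0
    · exact Or.inl h
    · exact Or.inr (mem_erase.2 ⟨h, hl⟩)
  have hsp := H47.NC.split_edge hends.1 hsplit
  obtain ⟨v0, v1, hv, hv0, hv1⟩ : ∃ v0 v1, ((v0 = eu e ∧ v1 = ev e) ∨ (v0 = ev e ∧ v1 = eu e)) ∧
      Co K v0 tL ∧ Co K v1 tR := by
    have er : ∀ {a b}, Co (K.erase (eu e0 + ev e0)) a b → Co K a b :=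
      fun h => h.mono (erase_subset _ _)
    rcases hsp with h | ⟨h1, h2⟩ | ⟨h1, h2⟩
    · exact absurd ((er h).mono hKsub) hno
    · rcases ht with ⟨rfl, rfl⟩ | ⟨rfl, rfl⟩
      · exact ⟨_, _, Or.inl ⟨rfl, rfl⟩, er h1, (er h2).symm⟩
      · exact ⟨_, _, Or.inr ⟨rfl, rfl⟩, (er h2).symm, er h1⟩
    · rcases ht with ⟨rfl, rfl⟩ | ⟨rfl, rfl⟩
      · exact ⟨_, _, Or.inr ⟨rfl, rfl⟩, (er h2).symm, er h1⟩
      · exact ⟨_, _, Or.inl ⟨rfl, rfl⟩, er h1, (er h2).symm⟩
  have hdsub : η \ dpl p n ⊆ ζ.erase e := by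
    intro l hl
    have h1 := mem_sdiff.1 hl
    refine mem_erase.2 ⟨fun h => h1.2 (h ▸ hepl), mem_sdiff.2 ⟨h1.1, fun h => h1.2 ?_⟩⟩
    exact (mem_filter.1 h).1
  have havoid : ∀ v, Co K v0 v → ¬ Φ v := by
    intro v hv0v hΦv
    have h1 := (hΦ v hΦv).mono hdsub
    have h2 : Co (ζ.erase e) v0 v1 := ((hv0v.mono hKsub).trans h1).trans (hv1.mono hKsub).symm
    rcases hv with ⟨rfl, rfl⟩ | ⟨rfl, rfl⟩
    · exact hno h2
    · exact hno h2.symm
  refine ⟨i, hin, v0, ?_, havoid v0 (Co.refl _ _), coX_mono hKη (co_coX hv0 havoid)⟩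
  rcases hv with ⟨rfl, -⟩ | ⟨rfl, -⟩
  · exact Or.inl rfl
  · exact Or.inr rfl

end Pool.Agent.H65.Dom
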