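import Mathlib
import Pool.Agent.H65.Dom.Approach
import Pool.Agent.H65.Dom.KLdual

set_option autoImplicit false
open Finset

/-! Dual paths are extended up to a free arc: the dual form of `approach`. -/

namespace Pool.Agent.H65.Dom

open Pool.Agent.H75.Perc Pool.Agent.H75.TwoArm Pool.Agent.H75.Four Pool.Agent.H99.NC

lemma ends_near {u v g : ℤ × ℤ} (h : IsUnit4 (v - u))
    (hg : g = eu (u + v - (1, 1)) ∨ g = ev (u + v - (1, 1))) :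
    |g.1 - u.1| ≤ 1 ∧ |g.2 - u.2| ≤ 1 := by
  have h1 := unit_cases h
  rw [abs_le, abs_le]
  rcases hg with rfl | rfl
  · unfold eu
    simp only [Prod.fst_add, Prod.snd_add, Prod.fst_sub, Prod.snd_sub]
    omega
  · unfold ev
    simp only [Prod.fst_add, Prod.snd_add, Prod.fst_sub, Prod.snd_sub]
    omega

theorem approach_dual_gen {δ : ℝ} {q : ℤ × ℤ → ℝ} {N : ℤ} (hD : Dec q δ N) {M : ℤ}
    {E W : Finset (ℤ × ℤ)} {e0 fL fR tL tR : ℤ × ℤ} (he : (e0.1 + e0.2) % 2 = 1)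
    (heM : e0 ∈ H75.TwoArm.BB (M - 1))
    (hEM : E ⊆ H75.TwoArm.BB (M - 1)) (hWM : W ⊆ H75.TwoArm.BB (M - 1)) (h0E : e0 ∉ E)
    (h0W : e0 ∉ W) (hf : Fc e0 fL fR)
    (ht : (tL = eu e0 ∧ tR = ev e0) ∨ (tL = ev e0 ∧ tR = eu e0))
    (U : Finset (ℤ × ℤ) → Finset (ℤ × ℤ))
    (hU : ∀ ω ω', ω ⊆ E → ω' ⊆ E → U (H75.Perc.mix (U ω) ω ω') = U ω)
    (Φ : Finset (ℤ × ℤ) → ℤ × ℤ → Prop) (G : Finset (ℤ × ℤ) → Prop)
    (hGs : ∀ ω ω', ω ⊆ E → ω' ⊆ E → G (H75.Perc.mix (U ω) ω ω') → G ω)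
    {ρ : ℤ} (hρ : 1 ≤ ρ) {k : ℕ} (hk : 1 ≤ k) (hN : 4 ^ k * ρ ≤ N)
    (hG : ∀ ω, ω ⊆ E → G ω → ∃ (z : ℤ × ℤ) (p : ℕ → ℤ × ℤ) (n : ℕ), LP z (ρ - 1) p n ∧
      e0 ∉ dpl p n ∧ dpl p n ⊆ H75.TwoArm.BB M ∧
      Co (du (H75.TwoArm.BB M) (insert e0 ((ω ∩ U ω) ∪ (E \ U ω) ∪ W))) fL (p 0) ∧
      Co (du (H75.TwoArm.BB M) (insert e0 ((ω ∩ U ω) ∪ (E \ U ω) ∪ W))) (p n) fR ∧
      (∀ v, Φ ω v → Co (((ω ∩ U ω) ∪ W) \ dpl p n) v tR) ∧
      ¬ sq z (4 ^ k * ρ) tL ∧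
      ∀ l, (l.1 + l.2) % 2 = 1 → (l ∈ W ∨ l ∈ ω ∩ U ω) →
        (sq z (4 ^ k * ρ) (eu l) ∨ sq z (4 ^ k * ρ) (ev l)) → Φ ω (eu l) ∨ Φ ω (ev l)) :
    PrP q E (fun ω => Co (ω ∪ W) (eu e0) (ev e0) ∧ G ω) ≤ PrP q E G * (1 - δ) ^ k := by
  classical
  have hEodd : ∀ e ∈ E, (e.1 + e.2) % 2 = 1 := fun e he => (HOrderAux.mem_BB'.1 (hEM he)).2.2
  refine stop_decay_open hD hEodd U hU _ G hGs hρ hN ?_
  intro ω hω hGω
  obtain ⟨z, p, n, ⟨hstep, hball⟩, hne, hPM, hp0, hpn, hΦ, htL, hfree⟩ := hG ω hω hGω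
  refine ⟨z, fun ω' hω' hA => ?_⟩
  set ζ := H75.Perc.mix (U ω) ω ω' with hζ
  have hζE : ζ ⊆ E := mix_sub hω hω'
  have h0η : e0 ∉ ζ ∪ W := by
    rw [mem_union]
    rintro (h | h)
    · exact h0E (hζE h)
    · exact h0W h
  have hηM : ζ ∪ W ⊆ H75.TwoArm.BB (M - 1) := union_subset (hζE.trans hEM) hWM
  have hsub : ((ω ∩ U ω) ∪ W) ⊆ ζ ∪ W := by
    refine union_subset_union (fun l hl => ?_) subset_rfl
    rw [hζ, H75.Perc.mem_mix]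
    exact Or.inl (mem_inter.1 hl)
  have hsub2 : insert e0 (ζ ∪ W) ⊆ insert e0 ((ω ∩ U ω) ∪ (E \ U ω) ∪ W) := by
    refine insert_subset_insert _ (union_subset_union (fun l hl => ?_) subset_rfl)
    rw [hζ, H75.Perc.mem_mix] at hl
    rcases hl with hl | hl
    · exact mem_union_left _ (mem_inter.2 hl)
    · exact mem_union_right _ (mem_sdiff.2 ⟨hω' hl.1, hl.2⟩)
  have hsep : ¬ Co (du (H75.TwoArm.BB M) (insert e0 (ζ ∪ W))) fL fR := by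
    intro h
    have h1 := (conn_iff he heM (insert_subset heM hηM) (mem_insert_self _ _) hf).1 (by
      rw [erase_insert h0η]; exact hA)
    exact h1 ⟨fL, rfl, h⟩
  obtain ⟨j, hj, v0, hv0, hv0Φ, hpath⟩ := kl_dual (M := M) (η := ζ ∪ W) he heM hηM h0η hf ht hsep p n
    (hp0.mono (du_anti hsub2)) (hpn.mono (du_anti hsub2)) hstep hne hPM
    (Φ ω) (fun g hg => (hΦ g hg).mono (sdiff_subset_sdiff hsub subset_rfl))
  have hfn := ends_near (hstep j hj) hv0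
  have hbj := hball j hj.le
  have h4 : (4 : ℤ) ≤ 4 ^ k := by
    calc (4 : ℤ) = 4 ^ 1 := by norm_num
      _ ≤ 4 ^ k := pow_le_pow_right₀ (by norm_num) hk
  have hρ4 : 4 * ρ ≤ 4 ^ k * ρ := by nlinarith
  have hgz : |v0.1 - z.1| ≤ ρ ∧ |v0.2 - z.2| ≤ ρ := by
    simp only [abs_le] at hfn hbj ⊢
    omega
  have hb0 : sq z (4 ^ k * ρ) v0 := ⟨by omega, by omega⟩
  obtain ⟨v, hv1, hv2⟩ := arm_of_coX (κ2 := ω' \ U ω) (ball := sq z (4 ^ k * ρ)) hpath hv0Φ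
    (by
      intro f g hfb hfΦ hgΦ hAd
      have hlη : f + g ∈ ζ ∪ W := (mem_inter.1 hAd.2).1
      have hodd := odd_of_unit hAd.1
      have hends := ends_of hodd hAd.1 rfl
      have hno : ¬ (Φ ω (eu (f + g)) ∨ Φ ω (ev (f + g))) := by
        rcases hends with ⟨h1, h2⟩ | ⟨h1, h2⟩
        · rw [← h1, ← h2]
          rintro (h | h)
          · exact hfΦ h
          · exact hgΦ h
        · rw [← h1, ← h2]
          rintro (h | h)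
          · exact hgΦ h
          · exact hfΦ h
      have hb : sq z (4 ^ k * ρ) (eu (f + g)) ∨ sq z (4 ^ k * ρ) (ev (f + g)) := by
        rcases hends with ⟨h1, h2⟩ | ⟨h1, h2⟩
        · rw [← h1]; exact Or.inl hfb
        · rw [← h1]; exact Or.inr hfb
      have hlW : f + g ∉ W := fun h => hno (hfree _ hodd (Or.inl h) hb)
      have hlζ : f + g ∈ ζ := (mem_union.1 hlη).resolve_right hlW
      have hlU : f + g ∉ U ω := by
        intro h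
        refine hno (hfree _ hodd (Or.inr (mem_inter.2 ⟨?_, h⟩)) hb)
        rw [hζ, H75.Perc.mem_mix] at hlζ
        rcases hlζ with h1 | h1
        · exact h1.1
        · exact absurd h h1.2
      refine ⟨hAd.1, mem_sdiff.2 ⟨?_, hlU⟩⟩
      rw [hζ, H75.Perc.mem_mix] at hlζ
      rcases hlζ with h1 | h1
      · exact absurd h1.2 hlU
      · exact h1.1) hb0 htL
  exact ⟨v0, v, hgz.1, hgz.2, not_sq.1 hv1, hv2⟩

/-- **Extension of dual paths up to a free arc**, exploration of the open cluster of `tR` in the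
sub-environment in which the labels of `E \ E'` are closed. -/
theorem approach_dual {δ : ℝ} {q : ℤ × ℤ → ℝ} {N : ℤ} (hD : Dec q δ N) {M : ℤ}
    {E W : Finset (ℤ × ℤ)} {e0 fL fR tL tR : ℤ × ℤ} (he : (e0.1 + e0.2) % 2 = 1)
    (heM : e0 ∈ H75.TwoArm.BB (M - 1))
    (hEM : E ⊆ H75.TwoArm.BB (M - 1)) (hWM : W ⊆ H75.TwoArm.BB (M - 1)) (h0E : e0 ∉ E)
    (h0W : e0 ∉ W) (hf : Fc e0 fL fR)
    (ht : (tL = eu e0 ∧ tR = ev e0) ∨ (tL = ev e0 ∧ tR = eu e0))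
    {E' F0 : Finset (ℤ × ℤ)} (G : Finset (ℤ × ℤ) → Prop)
    (hGs : ∀ ω ω', ω ⊆ E → ω' ⊆ E →
      G (H75.Perc.mix (UO E' ((ω ∩ E') ∪ W) (fun v => v = tR) ∪ F0) ω ω') → G ω)
    {ρ : ℤ} (hρ : 1 ≤ ρ) {k : ℕ} (hk : 1 ≤ k) (hN : 4 ^ k * ρ ≤ N)
    (hG : ∀ ω, ω ⊆ E → G ω → ∃ (z : ℤ × ℤ) (p : ℕ → ℤ × ℤ) (n : ℕ), LP z (ρ - 1) p n ∧
      e0 ∉ dpl p n ∧ dpl p n ⊆ H75.TwoArm.BB M ∧ Disjoint (dpl p n) (E' ∪ W) ∧
      Co (du (H75.TwoArm.BB M) (insert e0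
        ((ω ∩ (UO E' ((ω ∩ E') ∪ W) (fun v => v = tR) ∪ F0)) ∪
          (E \ (UO E' ((ω ∩ E') ∪ W) (fun v => v = tR) ∪ F0)) ∪ W))) fL (p 0) ∧
      Co (du (H75.TwoArm.BB M) (insert e0
        ((ω ∩ (UO E' ((ω ∩ E') ∪ W) (fun v => v = tR) ∪ F0)) ∪
          (E \ (UO E' ((ω ∩ E') ∪ W) (fun v => v = tR) ∪ F0)) ∪ W))) (p n) fR ∧
      ¬ sq z (4 ^ k * ρ) tL ∧
      ∀ l, (l.1 + l.2) % 2 = 1 → (l ∈ W ∨ l ∈ F0) →
        (sq z (4 ^ k * ρ) (eu l) ∨ sq z (4 ^ k * ρ) (ev l)) →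
        Cl ((ω ∩ E') ∪ W) (fun v => v = tR) (eu l) ∨
          Cl ((ω ∩ E') ∪ W) (fun v => v = tR) (ev l)) :
    PrP q E (fun ω => Co (ω ∪ W) (eu e0) (ev e0) ∧ G ω) ≤ PrP q E G * (1 - δ) ^ k := by
  classical
  have hst : ∀ ω ω', ω ⊆ E → ω' ⊆ E → ∀ l ∈ UO E' ((ω ∩ E') ∪ W) (fun v => v = tR),
      (l ∈ ω ∩ E' ↔
        l ∈ H75.Perc.mix (UO E' ((ω ∩ E') ∪ W) (fun v => v = tR) ∪ F0) ω ω' ∩ E') := by
    intro ω ω' _ _ l hl
    rw [mem_inter, mem_inter, H75.Perc.mem_mix, mem_union]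
    tauto
  refine approach_dual_gen hD he heM hEM hWM h0E h0W hf ht
    (fun ω => UO E' ((ω ∩ E') ∪ W) (fun v => v = tR) ∪ F0) ?_
    (fun ω => Cl ((ω ∩ E') ∪ W) (fun v => v = tR)) G hGs hρ hk hN ?_
  · intro ω ω' hω hω'
    rw [UO_env inter_subset_right inter_subset_right (hst ω ω' hω hω')]
  · intro ω hω hGω
    obtain ⟨z, p, n, h1, h2, h3, h4, h5, h6, h7, h8⟩ := hG ω hω hGω
    refine ⟨z, p, n, h1, h2, h3, h5, h6, ?_, h7, ?_⟩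
    · rintro v ⟨s, rfl, hs⟩
      have hloc : Cl ((ω ∩ UO E' ((ω ∩ E') ∪ W) (fun v => v = s)) ∪ W) (fun v => v = s) v := by
        refine (Cl_env (E := E') (ω := ω ∩ E') inter_subset_right ?_ ?_ v).2 ⟨s, rfl, hs⟩
        · intro l hl
          exact (mem_UO.1 (mem_inter.1 hl).2).1
        · intro l hl
          have := (mem_UO.1 hl).1
          rw [mem_inter, mem_inter]
          tauto
      obtain ⟨s', rfl, hs'⟩ := hloc
      refine hs'.symm.mono ?_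
      intro l hl
      rw [mem_sdiff]
      refine ⟨?_, fun h => ?_⟩
      · rcases mem_union.1 hl with hl | hl
        · exact mem_union_left _ (mem_inter.2 ⟨(mem_inter.1 hl).1,
            mem_union_left _ (mem_inter.1 hl).2⟩)
        · exact mem_union_right _ hl
      · refine disjoint_left.1 h4 h ?_
        rcases mem_union.1 hl with hl | hl
        · exact mem_union_left _ (mem_UO.1 (mem_inter.1 hl).2).1
        · exact mem_union_right _ hl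
    · intro l hodd hl hb
      rcases hl with hl | hl
      · exact h8 l hodd (Or.inl hl) hb
      · rcases mem_union.1 (mem_inter.1 hl).2 with h9 | h9
        · exact (mem_UO.1 h9).2
        · exact h8 l hodd (Or.inr h9) hb

/-- the dual crossing event of the explored sub-environment is realised by explored closed labels -/
theorem expl_dual {M : ℤ} {E W ω : Finset (ℤ × ℤ)} {e0 fL fR tL tR : ℤ × ℤ}
    (he : (e0.1 + e0.2) % 2 = 1) (heM : e0 ∈ H75.TwoArm.BB (M - 1))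
    (hEM : E ⊆ H75.TwoArm.BB (M - 1))
    (hWM : W ⊆ H75.TwoArm.BB (M - 1)) (hω : ω ⊆ E) (h0E : e0 ∉ E) (h0W : e0 ∉ W)
    (hf : Fc e0 fL fR) (ht : (tL = eu e0 ∧ tR = ev e0) ∨ (tL = ev e0 ∧ tR = eu e0))
    (hc : ¬ Co (ω ∪ W) (eu e0) (ev e0)) :
    Co (du (H75.TwoArm.BB M) (insert e0 ((ω ∩ UO E (ω ∪ W) (fun v => v = tR)) ∪
      (E \ UO E (ω ∪ W) (fun v => v = tR)) ∪ W))) fL fR := by
  classical
  set U := UO E (ω ∪ W) (fun v => v = tR) with hU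
  have hs : (ω ∩ U) ∪ (E \ U) ⊆ E := union_subset (inter_subset_left.trans hω) sdiff_subset
  have h0 : e0 ∉ ((ω ∩ U) ∪ (E \ U)) ∪ W := by
    rw [mem_union]
    rintro (h | h)
    · exact h0E (hs h)
    · exact h0W h
  have hcl : ∀ g, Cl (((ω ∩ U) ∪ (E \ U)) ∪ W) (fun v => v = tR) g ↔
      Cl (ω ∪ W) (fun v => v = tR) g := by
    intro g
    refine Cl_env hω hs ?_ g
    intro l hl
    rw [mem_union, mem_inter, mem_sdiff]
    have : l ∈ U := hl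
    tauto
  have hno : ¬ Co (((ω ∩ U) ∪ (E \ U)) ∪ W) (eu e0) (ev e0) := by
    intro h
    have h1 : Cl (((ω ∩ U) ∪ (E \ U)) ∪ W) (fun v => v = tR) tL := by
      rcases ht with ⟨rfl, rfl⟩ | ⟨rfl, rfl⟩
      · exact ⟨_, rfl, h.symm⟩
      · exact ⟨_, rfl, h⟩
    obtain ⟨s, rfl, h2⟩ := (hcl _).1 h1
    rcases ht with ⟨rfl, rfl⟩ | ⟨rfl, rfl⟩
    · exact hc h2.symm
    · exact hc h2
  have h1 := conn_iff he heM (insert_subset heM (union_subset (hs.trans hEM) hWM))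
    (mem_insert_self e0 _) hf
  rw [erase_insert h0] at h1
  have h2 : Ph M (insert e0 (((ω ∩ U) ∪ (E \ U)) ∪ W)) (fun g => g = fL) fR := by
    by_contra h
    exact hno (h1.2 h)
  obtain ⟨s, rfl, h3⟩ := h2
  exact h3

end Pool.Agent.H65.Dom
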